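import Mathlib
import Pool.Agent.L7h67.WB.Stm

/-!
# Project EX: Waring's problem for almost every real exponent

Theorem: for almost every `α > 1` and every `s ≥ (4 log 2) α + 5` every large integer is a sum of `s`
numbers `⌊x ^ α⌋`, `x ≥ 1`.

`Pool.Agent.L7h67.WB.gb φ x = ∑ i, (φ (x i).1 + φ (x i).2)` as in project WB; real exponents everywhere.
The exponent is called `m` below.
-/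

set_option autoImplicit false

namespace Pool.Agent.L7h27.EX

open Finset MeasureTheory Filter
open Pool.Agent.L7h67.WA (gs)
open Pool.Agent.L7h67.WB (gb)
open Pool.Agent.Helper602.MK (ee)

/-- number of solutions for one pair of variables of size `Q` -/
noncomputable def stepx (m Q V T : ℝ) : ℝ :=
  min (Q ^ 2) (min (Q * (1 + V / Q ^ (m - 1)))
    ((1 + V / Q ^ (m - 1)) * (1 + V / Q ^ (m - 1) + T / Q ^ (m - 1))))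

/-- PAIRX (adapt `L7h89/WB/Pair.lean`, `s_PAIR`). Two solutions `(u, v), (u', v')`: if `u - u'`,
`v - v'` have the same sign, then `Q^(m-1) (|u - u'| + |v - v'|) ≤ 2 V` by the monotonicity of `x^m`.
If opposite, use `h x = x^m - γ x^m log x` with `γ = 1 / (log (6 Q) + 1/m)`:
`h' x = γ m x^(m-1) log (6 Q / x)`, so `h' ≥ (1/4) γ Q^(m-1)` on `[Q, 4Q]` and
`h' ≤ -(1/4) γ Q^(m-1)` on `[8Q, 32Q]`, hence `(1/4) γ Q^(m-1) |u - u'| ≤ 2 V + 2 γ T`, i.e.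
`|u - u'| ≤ 24 (log Q) V / Q^(m-1) + 8 T / Q^(m-1)`. -/
def S_PAIRX : Prop := ∀ a b : ℝ, 1 < a → a ≤ b → ∃ K Q0 : ℝ, 1 ≤ K ∧ 3 ≤ Q0 ∧
  ∀ m : ℝ, a ≤ m → m ≤ b → ∀ Q : ℝ, Q0 ≤ Q → ∀ V T c1 c2 : ℝ, 0 ≤ V → 0 ≤ T →
  ∀ X : Finset (ℕ × ℕ),
  (∀ x ∈ X, Q ≤ (x.1 : ℝ) ∧ (x.1 : ℝ) ≤ 4 * Q ∧ 8 * Q ≤ (x.2 : ℝ) ∧ (x.2 : ℝ) ≤ 32 * Q) →
  (∀ x ∈ X, |(x.1 : ℝ) ^ m + (x.2 : ℝ) ^ m - c1| ≤ V ∧
    |(x.1 : ℝ) ^ m * Real.log x.1 + (x.2 : ℝ) ^ m * Real.log x.2 - c2| ≤ T) →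
  (#X : ℝ) ≤ K * Real.log Q * stepx m Q V T

/-- COUNTX (adapt `L7h89/WB/Pair.lean`, `step_mono`, `s_COUNT`): from PAIRX by induction on `n`. The
last level contributes at most `C Q^m` resp. `C Q^m log Q`, which is `≤ C B Q_i^(m-1)` for the others. -/
def S_COUNTX : Prop := ∀ a b : ℝ, 1 < a → a ≤ b → ∀ (B : ℝ) (n : ℕ), 1 ≤ B →
  ∃ K Q0 : ℝ, 1 ≤ K ∧ 3 ≤ Q0 ∧ ∀ m : ℝ, a ≤ m → m ≤ b → ∀ (Q : ℕ → ℝ) (Lg : ℝ),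
  (∀ i < n, Q0 ≤ Q i ∧ Real.log (Q i) ≤ Lg) →
  (∀ i j, i < j → j < n → Q j ^ m * Real.log (Q j) ≤ B * Q i ^ (m - 1)) →
  ∀ V T c1 c2 : ℝ, 0 ≤ V → 0 ≤ T → ∀ X : Finset (Fin n → ℕ × ℕ),
  (∀ x ∈ X, ∀ i : Fin n, Q i ≤ ((x i).1 : ℝ) ∧ ((x i).1 : ℝ) ≤ 4 * Q i ∧
    8 * Q i ≤ ((x i).2 : ℝ) ∧ ((x i).2 : ℝ) ≤ 32 * Q i) →
  (∀ x ∈ X, |gb (fun u => u ^ m) x - c1| ≤ V ∧
    |gb (fun u => u ^ m * Real.log u) x - c2| ≤ T) →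
  (#X : ℝ) ≤ K * Lg ^ n * ∏ i ∈ range n, stepx m (Q i) V T

/-- the scales `P^(r^i)` -/
noncomputable def qx (r P : ℝ) (i : ℕ) : ℝ := P ^ (r ^ i)

/-- `T min(1, T / P^m)` -/
noncomputable def vzx (m P T : ℝ) : ℝ := T * min 1 (T / P ^ m)

/-- NUMX (adapt `L7h89/WB/Num.lean`; here it is simpler). If `T ≥ P^m`, all factors are at most `Q^2`.
Otherwise `T = P^(m(1-x))`, `0 ≤ x ≤ 1/2`, `V ≤ L P^(m(1-2x))`. Put `s_i = r^i`, `κ = m(1-r) - 1 ≥ 0`;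
then `(m-1) s_i = m s_(i+1) + κ s_i`, so `T / Q_i^(m-1) ≤ P^(m(1-x-s_(i+1)))`,
`V / Q_i^(m-1) ≤ L P^(m(1-2x-s_(i+1)))`, and `s_i (1+κ) = m (s_i - s_(i+1))`. Let `j` be the least index
with `s_j ≤ 1-x` and `j'` the least `j' ≤ J` with `s_j' ≤ 1-2x` (or `j' = J`). Third term for the
levels `i < j`, second term for `j ≤ i < j'`, `Q^2` for the others. Saved exponent (up to `2mκ`):
`2m(1-s_j) - m(1-x-s_j) + m(s_j - s_j') - m(1-2x-s_j')^+`, which is `3mx`, or, if `j' = J` with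
`s_J > 1-2x`, `m(1+x-s_J) ≥ 2mx`; needed: `2mx`. (If `s_j ≤ 1-2x` then `j' = j` and the third term at
the level `j-1` loses also `m(1-2x-s_j)`: `3mx` again. Note `r^J ≤ 1/2 ≤ 1-x`, so `j ≤ J`.) -/
def S_NUMX : Prop := ∀ (m r : ℝ) (J : ℕ), 1 < m → 0 < r → r ≤ 1 - 1 / m → r ^ J ≤ 1 / 2 →
  ∀ P L T V : ℝ, 1 ≤ P → 1 ≤ L → P ^ (m / 2) ≤ T → 0 ≤ V → V ≤ L * vzx m P T →
  ∏ i ∈ range J, stepx m (qx r P i) V T ≤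
    (4 * L ^ 2) ^ (2 * J) * (∏ i ∈ range J, qx r P i ^ 2) * (vzx m P T / P ^ m) *
      P ^ (2 * m * (m * (1 - r) - 1))

/-- the block of `2 J` variables -/
noncomputable def blkx (r : ℝ) (J : ℕ) (P : ℝ) : Finset (Fin J → ℕ × ℕ) :=
  Fintype.piFinset fun i : Fin J =>
    Ioc ⌊qx r P i⌋₊ ⌊4 * qx r P i⌋₊ ×ˢ Ioc ⌊8 * qx r P i⌋₊ ⌊32 * qx r P i⌋₊

/-- the optimal mean value, up to `ε` -/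
def MVBx (m ε : ℝ) (α : Type) (X : ℕ → Finset α) (G : α → ℝ) : Prop :=
  ∃ δ : ℝ, 0 < δ ∧ ∀ᶠ l : ℕ in atTop, ∀ Y : Finset (α × α), Y ⊆ X l ×ˢ X l →
    (∀ p ∈ Y, |G p.1 - G p.2| ≤ ((2 : ℝ) ^ l) ^ δ) →
    (#Y : ℝ) ≤ (#(X l) : ℝ) ^ 2 * ((2 : ℝ) ^ l) ^ (-m + ε)

/-- MVX: from COUNTX, NUMX, `S_INT` and `s_BC` (helper27). -/
def S_MVX : Prop := ∀ J : ℕ, ∀ᵐ m : ℝ, 1 < m → (1 - 1 / m) ^ J ≤ 1 / 2 → ∀ ε : ℝ, 0 < ε →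
  ∃ r : ℝ, 0 < r ∧ r < 1 ∧
    MVBx m ε (Fin J → ℕ × ℕ) (fun l => blkx r J ((2 : ℝ) ^ l)) (gb (fun u => u ^ m))

/-- what the circle method needs to know about a block -/
def GoodBlkx (m ε : ℝ) (α : Type) (X : ℕ → Finset α) (G : α → ℝ) : Prop :=
  (∃ C : ℝ, ∀ᶠ l : ℕ in atTop, ∀ x ∈ X l, |G x| ≤ C * ((2 : ℝ) ^ l) ^ m) ∧
  (∀ᶠ l : ℕ in atTop, (X l).Nonempty) ∧
  (∀ᶠ l : ℕ in atTop, ∑ x ∈ X l, ∑ x' ∈ X l, gs 1 (G x - G x') ≤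
    (#(X l) : ℝ) ^ 2 * ((2 : ℝ) ^ l) ^ (-m + ε))

/-- GMBX (adapt `L7h97/WB/Gmb.lean`): passage from `G₀` to `G` at bounded distance. -/
def S_GMBX : Prop := ∀ (m ε ε' : ℝ) (α : Type) (X : ℕ → Finset α) (G₀ G : α → ℝ) (B : ℝ),
  (∀ x, |G x - G₀ x| ≤ B) → MVBx m ε α X G₀ → ε < ε' → ∀ᶠ l : ℕ in atTop,
    ∑ x ∈ X l, ∑ x' ∈ X l, gs 1 (G x - G x') ≤
      (#(X l) : ℝ) ^ 2 * ((2 : ℝ) ^ l) ^ (-m + ε')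

/-- the Weyl sum over `(aP, 4aP]` -/
noncomputable def WSg (φ : ℝ → ℝ) (a P : ℕ) (β : ℝ) : ℂ :=
  ∑ z ∈ Ioc (a * P) (4 * (a * P)), ee (β * φ (z : ℝ))

/-- the corresponding integral -/
noncomputable def WIg (φ : ℝ → ℝ) (a P : ℕ) (β : ℝ) : ℂ :=
  ∫ u in (((a * P : ℕ) : ℝ))..(((4 * (a * P) : ℕ) : ℝ)), ee (β * φ u)

/-- the integral of the bump around `τ` along `φ` -/
noncomputable def GIg (φ : ℝ → ℝ) (a P : ℕ) (w τ : ℝ) : ℝ :=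
  ∫ u in (((a * P : ℕ) : ℝ))..(((4 * (a * P) : ℕ) : ℝ)), gs w (φ u - τ)

/-- the sum of the bumps around `τ` along `φ` -/
noncomputable def GSg (φ : ℝ → ℝ) (a P : ℕ) (w τ : ℝ) : ℝ :=
  ∑ z ∈ Ioc (a * P) (4 * (a * P)), gs w (φ (z : ℝ) - τ)

/-- COREX: `L7h37/WA/Core.lean` with a continuous function instead of a polynomial. -/
def S_COREX : Prop := ∀ (α γ : Type) (XA : Finset α) (XB : Finset γ) (GA : α → ℝ) (GB : γ → ℝ)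
  (φ : ℝ → ℝ) (a P : ℕ) (w B η MA MB τ : ℝ), Continuous φ →
  0 < w → w ≤ 1 → 0 ≤ B → 0 ≤ η →
  (∀ β : ℝ, |β| ≤ B → ‖WSg φ a P β - WIg φ a P β‖ ≤ η) →
  (∑ x ∈ XA, ∑ x' ∈ XA, gs 1 (GA x - GA x')) ≤ MA →
  (∑ y ∈ XB, ∑ y' ∈ XB, gs 1 (GB y - GB y')) ≤ MB →
  |∑ x ∈ XA, ∑ y ∈ XB, (GSg φ a P w (τ - GA x - GB y) - GIg φ a P w (τ - GA x - GB y))| ≤
    η * Real.sqrt (MA * MB) +
      12 * ((#XA : ℝ) * #XB * (a * P)) * Real.exp (-(Real.pi * w ^ 2 * B ^ 2 / 2))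

/-- ESX (adapt `L7h50/HB/Es.lean`, `block`, with the exponent `m` instead of `1/2`):
`Pool.Agent.N701.S.vd q`, `q = ⌈m⌉₊ + 3`, `Z = 2 π |β| N^m`, `φ_j(x) = ± m(m-1)...(m-j+1) x^(m-j) / N^m`. -/
def S_ESX : Prop := ∀ m : ℝ, 1 < m → (∀ n : ℕ, (n : ℝ) ≠ m) → ∃ δ C : ℝ, 0 < δ ∧ 0 < C ∧
  ∀ (N A B : ℕ) (β : ℝ), 4 ≤ N → N ≤ A → A ≤ B → B + 1 ≤ 3 * N →
  Real.sqrt N ≤ 2 * Real.pi * |β| * (N : ℝ) ^ m → |β| ≤ N →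
  ‖∑ n ∈ Ioc A B, ee (β * (n : ℝ) ^ m)‖ ≤ C * (N : ℝ) ^ (1 - δ)

/-- VANX (adapt `L7h22/WA/Van.lean`). -/
def S_VANX : Prop := ∀ m : ℝ, 1 < m → ∀ a : ℕ, 1 ≤ a → ∃ C : ℝ, 0 < C ∧ ∀ᶠ P : ℕ in atTop, ∀ β : ℝ,
  ‖WSg (fun u => u ^ m) a P β - WIg (fun u => u ^ m) a P β‖ ≤ C * |β| * (P : ℝ) ^ m ∧
  |β| * ‖WIg (fun u => u ^ m) a P β‖ ≤ C / (P : ℝ) ^ (m - 1)

/-- the property of the exponent used in the circle method -/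
def Sup (m σ : ℝ) : Prop := ∀ a : ℕ, 1 ≤ a → ∀ᶠ P : ℕ in atTop, ∀ β : ℝ, |β| ≤ (P : ℝ) ^ σ →
  ‖WSg (fun u => u ^ m) a P β - WIg (fun u => u ^ m) a P β‖ ≤ (P : ℝ) ^ (1 - σ)

/-- SUPX: from ESX, VANX (`|β| ≤ P^(3/4 - m)`: the first part of VANX; otherwise both the sum and the
integral are small; `(aP, 4aP] = (aP, 2aP] ∪ (2aP, 4aP]`). -/
def S_SUPX : Prop := ∀ m : ℝ, 1 < m → (∀ n : ℕ, (n : ℝ) ≠ m) → ∃ σ : ℝ, 0 < σ ∧ σ ≤ 1 / 4 ∧ Sup m σ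

/-- GILX (adapt `GI_low` in `L7h22/WA/Maint.lean`). -/
def S_GILX : Prop := ∀ (m : ℝ) (a0 : ℕ), 1 < m → 1 ≤ a0 → ∃ c : ℝ, 0 < c ∧ ∀ᶠ P : ℕ in atTop,
  ∀ w : ℝ, 0 < w → w ≤ 1 → ∀ τ : ℝ,
    (3 / 2 * ((a0 : ℝ) * P)) ^ m ≤ τ → τ ≤ (3 * ((a0 : ℝ) * P)) ^ m →
    c * w / (P : ℝ) ^ (m - 1) ≤ GIg (fun u => u ^ m) a0 P w τ

/-- FINEX (adapt `L7h67/WB/Fine.lean`: `fine_block`, `a0 = 2A` or `3A`), from COREX and GILX. -/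
def S_FINEX : Prop := ∀ m σ : ℝ, 1 < m → 0 < σ → σ ≤ 1 / 4 → Sup m σ → ∀ (α β : Type)
  (XA : ℕ → Finset α) (XB : ℕ → Finset β) (GA : α → ℝ) (GB : β → ℝ),
  GoodBlkx m (σ / 4) α XA GA → GoodBlkx m (σ / 4) β XB GB → ∀ M : ℕ,
  ∀ᶠ τ : ℝ in atTop, ∃ l : ℕ, M ≤ l ∧ ∃ x ∈ XA l, ∃ y ∈ XB l, ∃ z : ℕ, M ≤ z ∧
    |GA x + GB y + (z : ℝ) ^ m - τ| < τ ^ (-(σ / (16 * m)))

/-- FINE2X (adapt `L7h97/WB/Fine2.lean`): one good block and one more variable, almost all integers. -/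
def S_FINE2X : Prop := ∀ m σ : ℝ, 1 < m → 0 < σ → σ ≤ 1 / 4 → Sup m σ → ∃ c : ℝ, 0 < c ∧
  ∀ (α : Type) (XA : ℕ → Finset α) (GA : α → ℝ), GoodBlkx m (σ / 4) α XA GA → ∀ M : ℕ, ∀ κ : ℝ,
  ∀ᶠ N : ℕ in atTop, ∀ Z : Finset ℕ, (∀ n ∈ Z, n ≤ N) →
    (∀ n ∈ Z, ∀ l : ℕ, M ≤ l → ∀ x ∈ XA l, ∀ z : ℕ, M ≤ z →
      (N : ℝ) ^ (-c) ≤ |GA x + (z : ℝ) ^ m - (n + κ)|) →
    (#Z : ℝ) ≤ (N : ℝ) ^ (1 - c)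

end Pool.Agent.L7h27.EX
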