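import Mathlib
import Pool.Agent.L7h27.EX.Stm
import Pool.Agent.L7h67.WB.MvsA

/-!
# Project EX: elementary facts on the blocks
-/

set_option autoImplicit false

namespace Pool.Agent.L7h27.EX

open Finset MeasureTheory Filter
open Pool.Agent.L7h67.WA (gs)
open Pool.Agent.L7h67.WB (gb gb_bound gb_deriv)

lemma qx_ge_one (r : ℝ) (hr : 0 < r) (P : ℝ) (hP : 1 ≤ P) (i : ℕ) : 1 ≤ qx r P i := by
  unfold qx
  exact Real.one_le_rpow hP (pow_nonneg hr.le i)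

lemma qx_le (r : ℝ) (hr : 0 < r) (hr1 : r < 1) (P : ℝ) (hP : 1 ≤ P) (i : ℕ) : qx r P i ≤ P := by
  unfold qx
  conv_rhs => rw [← Real.rpow_one P]
  apply Real.rpow_le_rpow_of_exponent_le hP
  exact pow_le_one₀ hr.le hr1.le

lemma qx_lower (r : ℝ) (hr : 0 < r) (hr1 : r < 1) (P : ℝ) (hP : 1 ≤ P) (J i : ℕ) (hi : i ≤ J) :
    qx r P J ≤ qx r P i := by
  unfold qx
  apply Real.rpow_le_rpow_of_exponent_le hP
  exact pow_le_pow_of_le_one hr.le hr1.le hi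

lemma qx_tendsto (r : ℝ) (hr : 0 < r) (J : ℕ) : Tendsto (fun P : ℝ => qx r P J) atTop atTop := by
  unfold qx
  exact tendsto_rpow_atTop (pow_pos hr J)

/-- the condition of COUNTX -/
lemma qx_cond (a b r : ℝ) (ha : 1 < a) (hr : 0 < r) (hra : r < 1 - 1 / a) (J : ℕ) :
    ∀ᶠ P : ℝ in atTop, ∀ m : ℝ, a ≤ m → m ≤ b → ∀ i j : ℕ, i < j → j < J →
      qx r P j ^ m * Real.log (qx r P j) ≤ 1 * qx r P i ^ (m - 1) := by
  have ha0 : 0 < a := by linarith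
  have hr1 : r < 1 := by
    have : 0 < 1 / a := by positivity
    linarith
  obtain ⟨κ, hκ⟩ : ∃ κ : ℝ, κ = a * (1 - r) - 1 := ⟨_, rfl⟩
  have hκ0 : 0 < κ := by
    rw [hκ]
    have h1 : 1 / a < 1 - r := by linarith
    rw [div_lt_iff₀ ha0] at h1
    linarith
  obtain ⟨e, he⟩ : ∃ e : ℝ, e = r ^ J * κ := ⟨_, rfl⟩
  have he0 : 0 < e := by rw [he]; positivity
  have h1 : ∀ᶠ P : ℝ in atTop, ‖Real.log P‖ ≤ 1 * ‖P ^ e‖ :=
    ((isLittleO_log_rpow_atTop he0).bound one_pos)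
  filter_upwards [h1, eventually_ge_atTop 1] with P h2 hP m ham hmb i j hij hj
  have hP0 : 0 < P := by linarith
  have hlog : 0 ≤ Real.log P := Real.log_nonneg hP
  rw [Real.norm_of_nonneg hlog, Real.norm_of_nonneg (by positivity), one_mul] at h2
  have hm1 : 1 < m := by linarith
  unfold qx
  rw [one_mul, ← Real.rpow_mul hP0.le, ← Real.rpow_mul hP0.le, Real.log_rpow hP0]
  have hrj : r ^ j ≤ 1 := pow_le_one₀ hr.le hr1.le
  have hrj0 : 0 < r ^ j := pow_pos hr j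
  have hri0 : 0 < r ^ i := pow_pos hr i
  have h3 : r ^ j * Real.log P ≤ P ^ e := by nlinarith
  have h4 : r ^ j * m + e ≤ r ^ i * (m - 1) := by
    have h5 : r ^ j ≤ r ^ i * r := by
      rw [← pow_succ]
      exact pow_le_pow_of_le_one hr.le hr1.le (by omega)
    have h6 : r ^ J ≤ r ^ i := pow_le_pow_of_le_one hr.le hr1.le (by omega)
    have h7 : κ ≤ m * (1 - r) - 1 := by
      rw [hκ]
      nlinarith
    have h8 : r ^ J * κ ≤ r ^ i * (m * (1 - r) - 1) := by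
      exact mul_le_mul h6 h7 hκ0.le hri0.le
    have h9 : r ^ j * m ≤ r ^ i * r * m := mul_le_mul_of_nonneg_right h5 (by linarith)
    rw [he]
    nlinarith
  calc P ^ (r ^ j * m) * (r ^ j * Real.log P) ≤ P ^ (r ^ j * m) * P ^ e :=
        mul_le_mul_of_nonneg_left h3 (by positivity)
    _ = P ^ (r ^ j * m + e) := by rw [Real.rpow_add hP0]
    _ ≤ P ^ (r ^ i * (m - 1)) := Real.rpow_le_rpow_of_exponent_le hP h4

lemma blkx_card (r : ℝ) (hr : 0 < r) (J : ℕ) (P : ℝ) (hP : 1 ≤ P) :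
    ∏ i ∈ range J, qx r P i ^ 2 ≤ (#(blkx r J P) : ℝ) := by
  unfold blkx
  rw [Fintype.card_piFinset, prod_range]
  push_cast
  apply Finset.prod_le_prod
  · intro i _
    have := qx_ge_one r hr P hP i
    positivity
  · intro i _
    rw [card_product, Nat.card_Ioc, Nat.card_Ioc]
    have h1 := qx_ge_one r hr P hP i
    obtain ⟨q, hq⟩ : ∃ q : ℝ, q = qx r P i := ⟨_, rfl⟩
    rw [← hq] at h1 ⊢
    have a1 := Nat.floor_le (show 0 ≤ q by linarith)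
    have a2 := Nat.lt_floor_add_one (4 * q)
    have a3 := Nat.floor_le (show 0 ≤ 8 * q by linarith)
    have a4 := Nat.lt_floor_add_one (32 * q)
    have b1 : ⌊q⌋₊ ≤ ⌊4 * q⌋₊ := Nat.floor_le_floor (by linarith)
    have b2 : ⌊8 * q⌋₊ ≤ ⌊32 * q⌋₊ := Nat.floor_le_floor (by linarith)
    push_cast [Nat.cast_sub b1, Nat.cast_sub b2]
    have c1 : q ≤ (⌊4 * q⌋₊ : ℝ) - ⌊q⌋₊ := by linarith
    have c2 : q ≤ (⌊32 * q⌋₊ : ℝ) - ⌊8 * q⌋₊ := by linarith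
    rw [sq]
    exact mul_le_mul c1 c2 (by linarith) (by linarith)

lemma blkx_card_pos (r : ℝ) (hr : 0 < r) (J : ℕ) (P : ℝ) (hP : 1 ≤ P) :
    (0 : ℝ) < #(blkx r J P) := by
  have h3 : 0 < ∏ i ∈ range J, qx r P i ^ 2 := by
    apply prod_pos
    intro i _
    have := qx_ge_one r hr P hP i
    positivity
  exact lt_of_lt_of_le h3 (blkx_card r hr J P hP)

lemma blkx_mem (r : ℝ) (hr : 0 < r) (J : ℕ) (P : ℝ) (hP : 1 ≤ P) (x : Fin J → ℕ × ℕ)
    (hx : x ∈ blkx r J P) (i : Fin J) : qx r P i ≤ ((x i).1 : ℝ) ∧ ((x i).1 : ℝ) ≤ 4 * qx r P i ∧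
    8 * qx r P i ≤ ((x i).2 : ℝ) ∧ ((x i).2 : ℝ) ≤ 32 * qx r P i := by
  unfold blkx at hx
  rw [Fintype.mem_piFinset] at hx
  have h := hx i
  rw [mem_product, mem_Ioc, mem_Ioc] at h
  have h1 := qx_ge_one r hr P hP i
  obtain ⟨q, hq⟩ : ∃ q : ℝ, q = qx r P i := ⟨_, rfl⟩
  rw [← hq] at h h1 ⊢
  obtain ⟨⟨a, b⟩, c, d⟩ := h
  refine ⟨(Nat.lt_of_floor_lt a).le, ?_, (Nat.lt_of_floor_lt c).le, ?_⟩
  · exact (Nat.le_floor_iff (by linarith)).1 b
  · exact (Nat.le_floor_iff (by linarith)).1 d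

/-- all coordinates are between `1` and `32 P` -/
lemma blkx_range (r : ℝ) (hr : 0 < r) (hr1 : r < 1) (J : ℕ) (P : ℝ) (hP : 1 ≤ P)
    (x : Fin J → ℕ × ℕ) (hx : x ∈ blkx r J P) (i : Fin J) :
    1 ≤ ((x i).1 : ℝ) ∧ ((x i).1 : ℝ) ≤ 32 * P ∧ 1 ≤ ((x i).2 : ℝ) ∧ ((x i).2 : ℝ) ≤ 32 * P := by
  obtain ⟨a, b, c, d⟩ := blkx_mem r hr J P hP x hx i
  have h1 := qx_ge_one r hr P hP i
  have h2 := qx_le r hr hr1 P hP i
  exact ⟨by linarith, by linarith, by linarith, by linarith⟩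

/-- the function of the parameter `θ`: `x^(m + η θ)` -/
noncomputable def Ph (m η θ x : ℝ) : ℝ := Real.exp ((m + η * θ) * Real.log x)

noncomputable def Ph1 (m η θ x : ℝ) : ℝ := η * Real.log x * Real.exp ((m + η * θ) * Real.log x)

noncomputable def Ph2 (m η θ x : ℝ) : ℝ :=
  (η * Real.log x) ^ 2 * Real.exp ((m + η * θ) * Real.log x)

lemma Ph_deriv (m η x θ : ℝ) : HasDerivAt (fun t => Ph m η t x) (Ph1 m η θ x) θ := by
  unfold Ph Ph1
  have h1 : HasDerivAt (fun t : ℝ => (m + η * t) * Real.log x) (η * 1 * Real.log x) θ :=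
    (((hasDerivAt_id θ).const_mul η).const_add m).mul_const (Real.log x)
  have h2 := h1.exp
  refine h2.congr_deriv ?_
  ring

lemma Ph1_deriv (m η x θ : ℝ) : HasDerivAt (fun t => Ph1 m η t x) (Ph2 m η θ x) θ := by
  have h1 := (Ph_deriv m η x θ).const_mul (η * Real.log x)
  unfold Ph1 Ph2
  unfold Ph Ph1 at h1
  refine h1.congr_deriv ?_
  ring

lemma Ph_eq (m η θ x : ℝ) (hx : 0 < x) : Ph m η θ x = x ^ (m + η * θ) := by
  unfold Ph
  rw [Real.rpow_def_of_pos hx, mul_comm]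

lemma Ph1_eq (m η θ x : ℝ) (hx : 0 < x) : Ph1 m η θ x = η * (x ^ (m + η * θ) * Real.log x) := by
  unfold Ph1
  rw [Real.rpow_def_of_pos hx, mul_comm (Real.log x) (m + η * θ)]
  ring

lemma Ph2_eq (m η θ x : ℝ) (hx : 0 < x) :
    Ph2 m η θ x = η ^ 2 * (x ^ (m + η * θ) * Real.log x ^ 2) := by
  unfold Ph2
  rw [Real.rpow_def_of_pos hx, mul_comm (Real.log x) (m + η * θ)]
  ring

/-- sizes -/
lemma Ph_size (m η θ b P : ℝ) (hη0 : 0 ≤ η) (hη1 : η ≤ 1) (hP : 1 ≤ P) (hm0 : 0 ≤ m + η * θ)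
    (hmb : m + η * θ ≤ b) (u : ℝ) (hu1 : 1 ≤ u) (hu2 : u ≤ 32 * P) :
    |Ph2 m η θ u| ≤ (32 * P) ^ b * Real.log (32 * P) ^ 2 ∧
    |Ph1 m η θ u| ≤ (32 * P) ^ b * Real.log (32 * P) ^ 2 := by
  have hu0 : 0 < u := by linarith
  have h32 : 1 ≤ 32 * P := by linarith
  have hl0 : 0 ≤ Real.log u := Real.log_nonneg hu1
  have hl1 : Real.log u ≤ Real.log (32 * P) := Real.log_le_log hu0 hu2
  have hL1 : 1 ≤ Real.log (32 * P) := by
    have h1 : Real.exp 1 ≤ 32 * P := by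
      have := Real.exp_one_lt_d9
      linarith
    exact (Real.le_log_iff_exp_le (by linarith)).2 h1
  have h1 : u ^ (m + η * θ) ≤ (32 * P) ^ b :=
    (Real.rpow_le_rpow hu0.le hu2 hm0).trans (Real.rpow_le_rpow_of_exponent_le h32 hmb)
  have h0 : 0 ≤ u ^ (m + η * θ) := by positivity
  have hb0 : 0 ≤ (32 * P) ^ b := by positivity
  rw [Ph2_eq m η θ u hu0, Ph1_eq m η θ u hu0, abs_of_nonneg (by positivity),
    abs_of_nonneg (by positivity)]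
  have hη2 : η ^ 2 ≤ 1 := pow_le_one₀ hη0 hη1
  constructor
  · have h2 : Real.log u ^ 2 ≤ Real.log (32 * P) ^ 2 := pow_le_pow_left₀ hl0 hl1 2
    have h3 : u ^ (m + η * θ) * Real.log u ^ 2 ≤ (32 * P) ^ b * Real.log (32 * P) ^ 2 :=
      mul_le_mul h1 h2 (by positivity) hb0
    have h4 : 0 ≤ u ^ (m + η * θ) * Real.log u ^ 2 := by positivity
    nlinarith
  · have h2 : Real.log u ≤ Real.log (32 * P) ^ 2 := by nlinarith
    have h3 : u ^ (m + η * θ) * Real.log u ≤ (32 * P) ^ b * Real.log (32 * P) ^ 2 :=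
      mul_le_mul h1 h2 (by positivity) hb0
    have h4 : 0 ≤ u ^ (m + η * θ) * Real.log u := by positivity
    nlinarith

lemma gb_congr' {J : ℕ} (φ ψ : ℝ → ℝ) (x : Fin J → ℕ × ℕ)
    (h : ∀ i, φ (x i).1 = ψ (x i).1 ∧ φ (x i).2 = ψ (x i).2) : gb φ x = gb ψ x := by
  unfold gb
  apply sum_congr rfl
  intro i _
  rw [(h i).1, (h i).2]

lemma gb_const_mul {J : ℕ} (c : ℝ) (φ : ℝ → ℝ) (x : Fin J → ℕ × ℕ) :
    gb (fun u => c * φ u) x = c * gb φ x := by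
  unfold gb
  rw [mul_sum]
  apply sum_congr rfl
  intro i _
  ring

end Pool.Agent.L7h27.EX
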