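import Mathlib
import Pool.Agent.L7h27.EX.MvA
import Pool.Agent.L7h67.WB.MvsB

/-!
# Project EX: the number of pairs in a window
-/

set_option autoImplicit false

namespace Pool.Agent.L7h27.EX

open Finset MeasureTheory Filter
open Pool.Agent.L7h67.WA (gs)
open Pool.Agent.L7h67.WB (gb gb_bound gb_deriv card_pairs)

/-- comparison of `vzx` with the quantity in INT -/
lemma vzx_cmp (m P η M T : ℝ) (hP : 1 ≤ P) (hη0 : 0 < η) (hη1 : η ≤ 1) (hM : P ^ m ≤ M)
    (hT : 0 ≤ T) :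
    T * min 1 (T / M) ≤ vzx m P (4 * T / η) ∧
    vzx m P (4 * T / η) ≤ 16 / η ^ 2 * (M / P ^ m) * (T * min 1 (T / M)) := by
  have hP0 : 0 < P := by linarith
  have hPm : 0 < P ^ m := by positivity
  have hM0 : 0 < M := lt_of_lt_of_le hPm hM
  unfold vzx
  have hTT : T ≤ 4 * T / η := by
    rw [le_div_iff₀ hη0]
    nlinarith
  have hT4 : 0 ≤ 4 * T / η := by positivity
  constructor
  · have h2 : T / M ≤ 4 * T / η / P ^ m := div_le_div₀ hT4 hTT hPm hM
    have h3 : min 1 (T / M) ≤ min 1 (4 * T / η / P ^ m) := min_le_min le_rfl h2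
    have h4 : 0 ≤ min 1 (T / M) := le_min zero_le_one (by positivity)
    exact mul_le_mul hTT h3 h4 hT4
  · have h2 : min 1 (4 * T / η / P ^ m) ≤ 4 / η * (M / P ^ m) * min 1 (T / M) := by
      rcases le_total 1 (T / M) with h | h
      · rw [min_eq_left h, mul_one]
        refine (min_le_left _ _).trans ?_
        have h5 : 1 ≤ 4 / η := by rw [le_div_iff₀ hη0]; linarith
        have h6 : 1 ≤ M / P ^ m := by rw [le_div_iff₀ hPm]; linarith
        nlinarith
      · rw [min_eq_right h]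
        refine (min_le_right _ _).trans (le_of_eq ?_)
        field_simp
    calc 4 * T / η * min 1 (4 * T / η / P ^ m) ≤
          4 * T / η * (4 / η * (M / P ^ m) * min 1 (T / M)) := mul_le_mul_of_nonneg_left h2 hT4
      _ = 16 / η ^ 2 * (M / P ^ m) * (T * min 1 (T / M)) := by
        field_simp
        ring

/-- the bound of the second derivative -/
noncomputable def MM (J : ℕ) (b P : ℝ) : ℝ :=
  (4 * J + 1) * ((32 * P) ^ b * Real.log (32 * P) ^ 2)

lemma log32 (P : ℝ) (hP : 1 ≤ P) : 1 ≤ Real.log (32 * P) := by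
  have h1 : Real.exp 1 ≤ 32 * P := by
    have := Real.exp_one_lt_d9
    linarith
  exact (Real.le_log_iff_exp_le (by linarith)).2 h1

lemma MM_ge (J : ℕ) (b P : ℝ) (hb : 0 ≤ b) (hP : 1 ≤ P) : P ^ b ≤ MM J b P ∧ 1 ≤ MM J b P := by
  have h1 : P ^ b ≤ (32 * P) ^ b := Real.rpow_le_rpow (by linarith) (by linarith) hb
  have h2 : 1 ≤ P ^ b := Real.one_le_rpow hP hb
  have h3 := log32 P hP
  have h4 : 1 ≤ Real.log (32 * P) ^ 2 := one_le_pow₀ h3
  have h5 : P ^ b ≤ (32 * P) ^ b * Real.log (32 * P) ^ 2 := by nlinarith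
  have h6 : (1 : ℝ) ≤ 4 * J + 1 := by
    have : (0 : ℝ) ≤ J := Nat.cast_nonneg J
    linarith
  have h7 : (32 * P) ^ b * Real.log (32 * P) ^ 2 ≤ MM J b P := by
    unfold MM
    exact le_mul_of_one_le_left (by positivity) h6
  exact ⟨h5.trans h7, h2.trans (h5.trans h7)⟩

/-- the bound for the number of pairs, without the factor from INT -/
noncomputable def AA (J : ℕ) (K L η a b r P : ℝ) : ℝ :=
  (#(blkx r J P) : ℝ) ^ 2 * (K * Real.log P ^ J * (4 * (8 * L) ^ 2) ^ (2 * J) * (16 / η ^ 2) *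
    (MM J b P / P ^ (2 * a)) * P ^ (2 * b * (b * (1 - r) - 1)))

theorem nbx (hCt : S_COUNTX) (hN : S_NUMX) (J : ℕ) (m η r : ℝ) (hη0 : 0 < η) (hη1 : η ≤ 1)
    (hm : 1 < m - 3 * η) (hr : 0 < r) (hra : r < 1 - 1 / (m - 3 * η)) (hrJ : r ^ J ≤ 1 / 2) :
    ∃ K P₀ : ℝ, 1 ≤ K ∧ 1 ≤ P₀ ∧ ∀ P : ℝ, P₀ ≤ P →
    (∀ θ, |θ| ≤ 3 → ∀ x ∈ blkx r J P, ∀ y ∈ blkx r J P,
      |gb (Ph2 m η θ) x - gb (Ph2 m η θ) y| ≤ MM J (m + 3 * η) P ∧
      |gb (Ph1 m η θ) x - gb (Ph1 m η θ) y| ≤ MM J (m + 3 * η) P) ∧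
    ∀ L : ℝ, 1 ≤ L → ∀ θ, |θ| ≤ 3 → ∀ T : ℝ, Real.sqrt (MM J (m + 3 * η) P) ≤ T →
      ∀ X : Finset ((Fin J → ℕ × ℕ) × (Fin J → ℕ × ℕ)),
      X ⊆ blkx r J P ×ˢ blkx r J P →
      (∀ p ∈ X, |gb (Ph m η θ) p.1 - gb (Ph m η θ) p.2| ≤
          8 * L * (T * min 1 (T / MM J (m + 3 * η) P)) ∧
        |gb (Ph1 m η θ) p.1 - gb (Ph1 m η θ) p.2| ≤ 4 * T) →
      (#X : ℝ) ≤ AA J K L η (m - 3 * η) (m + 3 * η) r P *
        (T * min 1 (T / MM J (m + 3 * η) P)) := by
  obtain ⟨a, haa⟩ : ∃ a : ℝ, a = m - 3 * η := ⟨_, rfl⟩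
  obtain ⟨b, hbb⟩ : ∃ b : ℝ, b = m + 3 * η := ⟨_, rfl⟩
  rw [← haa] at hm hra ⊢
  rw [← hbb]
  have ha0 : 0 < a := by linarith
  have hab : a ≤ b := by linarith
  have hb0 : 0 < b := by linarith
  have hr1 : r < 1 := by
    have : 0 < 1 / a := by positivity
    linarith
  obtain ⟨K, Q0, hK, hQ0, hcount⟩ := hCt a b hm hab 1 J le_rfl
  obtain ⟨P₁, hP₁⟩ := eventually_atTop.1 (((qx_tendsto r hr J).eventually
    (eventually_ge_atTop Q0)).and (qx_cond a b r hm hr hra J))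
  refine ⟨K, max 1 P₁, hK, le_max_left _ _, ?_⟩
  intro P hP
  have hP1 : 1 ≤ P := (le_max_left _ _).trans hP
  have hP0 : 0 < P := by linarith
  obtain ⟨hQJ, hcond⟩ := hP₁ P ((le_max_right _ _).trans hP)
  have hQi : ∀ i, i < J → Q0 ≤ qx r P i := fun i hi => hQJ.trans (qx_lower r hr hr1 P hP1 J i hi.le)
  have hmem := blkx_mem r hr J P hP1
  have hexp : ∀ θ : ℝ, |θ| ≤ 3 → a ≤ m + η * θ ∧ m + η * θ ≤ b := by
    intro θ hθ
    obtain ⟨h1, h2⟩ := abs_le.1 hθ
    constructor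
    · rw [haa]; nlinarith
    · rw [hbb]; nlinarith
  constructor
  · intro θ hθ x hx y hy
    obtain ⟨h1, h2⟩ := hexp θ hθ
    have h3 : ∀ x ∈ blkx r J P, |gb (Ph2 m η θ) x| ≤
        2 * J * ((32 * P) ^ b * Real.log (32 * P) ^ 2) ∧ |gb (Ph1 m η θ) x| ≤
        2 * J * ((32 * P) ^ b * Real.log (32 * P) ^ 2) := by
      intro x hx
      have h4 := blkx_range r hr hr1 J P hP1 x hx
      constructor
      · apply gb_bound
        intro i
        obtain ⟨u1, u2, v1, v2⟩ := h4 i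
        exact ⟨(Ph_size m η θ b P hη0.le hη1 hP1 (by linarith) h2 _ u1 u2).1,
          (Ph_size m η θ b P hη0.le hη1 hP1 (by linarith) h2 _ v1 v2).1⟩
      · apply gb_bound
        intro i
        obtain ⟨u1, u2, v1, v2⟩ := h4 i
        exact ⟨(Ph_size m η θ b P hη0.le hη1 hP1 (by linarith) h2 _ u1 u2).2,
          (Ph_size m η θ b P hη0.le hη1 hP1 (by linarith) h2 _ v1 v2).2⟩
    have h5 := h3 x hx
    have h6 := h3 y hy
    have h7 : 0 ≤ (32 * P) ^ b * Real.log (32 * P) ^ 2 := by positivity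
    have h8 : 2 * J * ((32 * P) ^ b * Real.log (32 * P) ^ 2) +
        2 * J * ((32 * P) ^ b * Real.log (32 * P) ^ 2) ≤ MM J b P := by
      unfold MM
      linarith
    constructor
    · exact (abs_sub _ _).trans ((add_le_add h5.1 h6.1).trans h8)
    · exact (abs_sub _ _).trans ((add_le_add h5.2 h6.2).trans h8)
  · intro L hL θ hθ T hT X hX hXc
    obtain ⟨m', hm'⟩ : ∃ m' : ℝ, m' = m + η * θ := ⟨_, rfl⟩
    obtain ⟨ham, hmb⟩ := hexp θ hθ
    rw [← hm'] at ham hmb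
    have hm1 : 1 < m' := by linarith
    obtain ⟨M, hM⟩ : ∃ M : ℝ, M = MM J b P := ⟨_, rfl⟩
    obtain ⟨hMb, hM1⟩ := MM_ge J b P hb0.le hP1
    rw [← hM] at hMb hM1 hT hXc ⊢
    have hMm : P ^ m' ≤ M := (Real.rpow_le_rpow_of_exponent_le hP1 hmb).trans hMb
    have hT0 : 0 < T := lt_of_lt_of_le (Real.sqrt_pos.2 (by linarith)) hT
    obtain ⟨v, hv⟩ : ∃ v : ℝ, v = T * min 1 (T / M) := ⟨_, rfl⟩
    have hv0 : 0 ≤ v := by
      rw [hv]
      exact mul_nonneg hT0.le (le_min zero_le_one (by positivity))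
    obtain ⟨w1, w2⟩ := vzx_cmp m' P η M T hP1 hη0 hη1 hMm hT0.le
    rw [← hv] at w1 w2 hXc ⊢
    have hTη : T ≤ 4 * T / η := by
      rw [le_div_iff₀ hη0]
      nlinarith
    have hrm : r ≤ 1 - 1 / m' := by
      have h1 : 1 / m' ≤ 1 / a := one_div_le_one_div_of_le ha0 ham
      linarith
    have hnum := hN m' r J hm1 hr hrm hrJ P (8 * L) (4 * T / η) (8 * L * v) hP1 (by linarith) (by
        have h1 : P ^ (m' / 2) ≤ T := by
          refine le_trans ?_ hT
          have h2 : P ^ (m' / 2) = Real.sqrt (P ^ m') := by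
            rw [Real.sqrt_eq_rpow, ← Real.rpow_mul hP0.le]
            congr 1
            ring
          rw [h2]
          exact Real.sqrt_le_sqrt hMm
        exact h1.trans hTη) (by positivity) (mul_le_mul_of_nonneg_left w1 (by positivity))
    have hprod := blkx_card r hr J P hP1
    have hcountX : ∀ y ∈ blkx r J P, ∀ X' : Finset (Fin J → ℕ × ℕ), (∀ x ∈ X', (x, y) ∈ X) →
        (#X' : ℝ) ≤ K * Real.log P ^ J *
          ∏ i ∈ range J, stepx m' (qx r P i) (8 * L * v) (4 * T / η) := by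
      intro y hy X' hX'
      have hpos : ∀ x ∈ blkx r J P, gb (Ph m η θ) x = gb (fun u => u ^ m') x ∧
          gb (Ph1 m η θ) x = η * gb (fun u => u ^ m' * Real.log u) x := by
        intro x hx
        have h4 := blkx_range r hr hr1 J P hP1 x hx
        constructor
        · apply gb_congr'
          intro i
          obtain ⟨u1, u2, v1, v2⟩ := h4 i
          rw [hm']
          exact ⟨Ph_eq m η θ _ (by linarith), Ph_eq m η θ _ (by linarith)⟩
        · rw [← gb_const_mul]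
          apply gb_congr'
          intro i
          obtain ⟨u1, u2, v1, v2⟩ := h4 i
          rw [hm']
          exact ⟨Ph1_eq m η θ _ (by linarith), Ph1_eq m η θ _ (by linarith)⟩
      have hy' := hpos y hy
      apply hcount m' ham hmb (fun i => qx r P i) (Real.log P)
        (fun i hi => ⟨hQi i hi, Real.log_le_log (by linarith [qx_ge_one r hr P hP1 i])
          (qx_le r hr hr1 P hP1 i)⟩)
        (fun i j hij hj => hcond m' ham hmb i j hij hj) (8 * L * v) (4 * T / η)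
        (gb (fun u => u ^ m') y) (gb (fun u => u ^ m' * Real.log u) y)
        (by positivity) (by positivity)
      · intro x hx i
        exact hmem x (mem_product.1 (hX (hX' x hx))).1 i
      · intro x hx
        have hx' := hpos x (mem_product.1 (hX (hX' x hx))).1
        obtain ⟨c1, c2⟩ := hXc (x, y) (hX' x hx)
        dsimp only at c1 c2
        rw [hx'.1, hy'.1] at c1
        rw [hx'.2, hy'.2, ← mul_sub, abs_mul, abs_of_pos hη0] at c2
        refine ⟨c1, ?_⟩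
        rw [le_div_iff₀ hη0]
        linarith
    have h1 := card_pairs (blkx r J P) X hX _ hcountX
    refine h1.trans ?_
    obtain ⟨N, hNdef⟩ : ∃ N : ℝ, N = (#(blkx r J P) : ℝ) := ⟨_, rfl⟩
    unfold AA
    rw [← hM]
    rw [← hNdef] at hprod ⊢
    have hN0 : 0 ≤ N := by rw [hNdef]; positivity
    have hPm : 0 < P ^ m' := by positivity
    have hlogP : 0 ≤ Real.log P := Real.log_nonneg hP1
    obtain ⟨G, hG⟩ : ∃ G : ℝ, G = (4 * (8 * L) ^ 2) ^ (2 * J) := ⟨_, rfl⟩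
    have hG0 : 0 ≤ G := by rw [hG]; positivity
    rw [← hG] at hnum ⊢
    obtain ⟨E, hE⟩ : ∃ E : ℝ, E = P ^ (2 * b * (b * (1 - r) - 1)) := ⟨_, rfl⟩
    rw [← hE]
    have hEm : P ^ (2 * m' * (m' * (1 - r) - 1)) ≤ E := by
      rw [hE]
      apply Real.rpow_le_rpow_of_exponent_le hP1
      have h2 : 0 ≤ m' * (1 - r) - 1 := by
        have h3 : 1 / m' ≤ 1 - r := by linarith
        rw [div_le_iff₀ (by linarith)] at h3
        linarith
      have h3 : m' * (1 - r) - 1 ≤ b * (1 - r) - 1 := by nlinarith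
      exact mul_le_mul (by linarith) h3 h2 (by linarith)
    have h2a : 0 < P ^ (2 * a) := by positivity
    have h3 : vzx m' P (4 * T / η) / P ^ m' ≤ 16 / η ^ 2 * (M / P ^ (2 * a)) * v := by
      rw [div_le_iff₀ hPm]
      refine w2.trans ?_
      have h4 : P ^ (2 * a) ≤ P ^ m' * P ^ m' := by
        rw [← Real.rpow_add hP0]
        exact Real.rpow_le_rpow_of_exponent_le hP1 (by linarith)
      have h5 : M / P ^ m' ≤ M / P ^ (2 * a) * P ^ m' := by
        rw [div_le_iff₀ hPm, mul_assoc, div_mul_eq_mul_div, le_div_iff₀ h2a]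
        exact mul_le_mul_of_nonneg_left h4 (by linarith)
      have h6 : 0 ≤ 16 / η ^ 2 := by positivity
      calc 16 / η ^ 2 * (M / P ^ m') * v ≤ 16 / η ^ 2 * (M / P ^ (2 * a) * P ^ m') * v :=
            mul_le_mul_of_nonneg_right (mul_le_mul_of_nonneg_left h5 h6) hv0
        _ = 16 / η ^ 2 * (M / P ^ (2 * a)) * v * P ^ m' := by ring
    have h7 : ∏ i ∈ range J, stepx m' (qx r P i) (8 * L * v) (4 * T / η) ≤
        G * N * (16 / η ^ 2 * (M / P ^ (2 * a)) * v) * E := by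
      refine hnum.trans ?_
      have h8 : 0 ≤ vzx m' P (4 * T / η) / P ^ m' := div_nonneg (hv0.trans w1) hPm.le
      have h9 : 0 ≤ 16 / η ^ 2 * (M / P ^ (2 * a)) * v := h8.trans h3
      have h10 : 0 ≤ ∏ i ∈ range J, qx r P i ^ 2 := prod_nonneg fun i _ => sq_nonneg _
      exact mul_le_mul (mul_le_mul (mul_le_mul_of_nonneg_left hprod hG0) h3 h8
        (mul_nonneg hG0 hN0)) hEm (by positivity) (mul_nonneg (mul_nonneg hG0 hN0) h9)
    calc N * (K * Real.log P ^ J *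
          ∏ i ∈ range J, stepx m' (qx r P i) (8 * L * v) (4 * T / η))
        ≤ N * (K * Real.log P ^ J * (G * N * (16 / η ^ 2 * (M / P ^ (2 * a)) * v) * E)) := by
          refine mul_le_mul_of_nonneg_left (mul_le_mul_of_nonneg_left h7 ?_) hN0
          positivity
      _ = N ^ 2 * (K * Real.log P ^ J * G * (16 / η ^ 2) * (M / P ^ (2 * a)) * E) * v := by ring

end Pool.Agent.L7h27.EX
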