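import Mathlib
import Pool.Agent.L7h27.EX.MvB
import Pool.Agent.L7h67.WA.Weyl
import Pool.Agent.L7h67.WA.Res2
import Pool.Agent.L7h37.WA.Slice

/-!
# Project EX: the mean value for almost every exponent
-/

set_option autoImplicit false

namespace Pool.Agent.L7h27.EX

open Finset MeasureTheory Filter
open Pool.Agent.L7h67.WA (gs ev_small ae_affine)
open Pool.Agent.L7h67.WB (gb gb_bound gb_deriv card_pairs S_INT)

lemma log_MM (J : ℕ) (b P : ℝ) (_hb : 0 ≤ b) (hP : 1 ≤ P) :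
    1 + Real.log (MM J b P) ≤ (4 * J + 4 + b) * Real.log (32 * P) := by
  have h1 := log32 P hP
  have hP0 : 0 < P := by linarith
  have hJ : (0 : ℝ) ≤ J := Nat.cast_nonneg J
  unfold MM
  obtain ⟨ℓ, hℓ⟩ : ∃ ℓ : ℝ, ℓ = Real.log (32 * P) := ⟨_, rfl⟩
  rw [← hℓ] at h1 ⊢
  rw [Real.log_mul (by positivity) (by positivity), Real.log_mul (by positivity) (by positivity),
    Real.log_rpow (by positivity), Real.log_pow, ← hℓ]
  have h2 : Real.log (4 * J + 1) ≤ 4 * J := by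
    have := Real.log_le_sub_one_of_pos (show (0 : ℝ) < 4 * J + 1 by positivity)
    linarith
  have h3 : Real.log ℓ ≤ ℓ - 1 := Real.log_le_sub_one_of_pos (by linarith)
  push_cast
  nlinarith

lemma final_x (J : ℕ) (K η b ε₁ δ : ℝ) (hK : 1 ≤ K) (hη : 0 < η) (hb : 0 ≤ b)
    (hε : 0 < ε₁) (hδ : δ = ε₁ / (8 * (4 * J + 1))) :
    ∀ᶠ P : ℝ in atTop, 1000 * P ^ δ * (K * Real.log P ^ J * (4 * (8 * P ^ δ) ^ 2) ^ (2 * J) *
      (16 / η ^ 2) * ((4 * J + 1) * (32 ^ b * Real.log (32 * P) ^ 2))) *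
      (1 + Real.log (MM J b P)) ≤ P ^ (ε₁ / 2) := by
  obtain ⟨e, he⟩ : ∃ e : ℝ, e = ε₁ / (8 * (J + 3)) := ⟨_, rfl⟩
  have he0 : 0 < e := by rw [he]; positivity
  obtain ⟨D, hD⟩ : ∃ D : ℝ, D = 1000 * K * 256 ^ (2 * J) * (16 / η ^ 2) * ((4 * J + 1) * 32 ^ b) *
    (4 * J + 4 + b) := ⟨_, rfl⟩
  have hD0 : 0 ≤ D := by rw [hD]; positivity
  have hev : ∀ᶠ P : ℝ in atTop, D * (32 ^ (ε₁ / 8) / e ^ (J + 3)) ≤ P ^ (ε₁ / 4) :=
    (tendsto_rpow_atTop (by positivity)).eventually_ge_atTop _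
  filter_upwards [hev, eventually_ge_atTop 1] with P hev' hP
  have hP0 : 0 < P := by linarith
  have h1 := log32 P hP
  have hlogP : 0 ≤ Real.log P := Real.log_nonneg hP
  have hlog2 : Real.log P ≤ Real.log (32 * P) := Real.log_le_log hP0 (by linarith)
  have h2 := log_MM J b P hb hP
  have e1 : P ^ δ * (4 * (8 * P ^ δ) ^ 2) ^ (2 * J) = 256 ^ (2 * J) * P ^ (ε₁ / 8) := by
    have e2 : 4 * (8 * P ^ δ) ^ 2 = 256 * (P ^ δ) ^ 2 := by ring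
    rw [e2, mul_pow, ← pow_mul, mul_left_comm, ← Real.rpow_natCast (P ^ δ), ← Real.rpow_mul hP0.le,
      ← Real.rpow_add hP0]
    congr 2
    rw [hδ]
    push_cast
    have : (4 * (J : ℝ) + 1) ≠ 0 := by positivity
    field_simp
    ring
  obtain ⟨ℓ, hℓ⟩ : ∃ ℓ : ℝ, ℓ = Real.log (32 * P) := ⟨_, rfl⟩
  rw [← hℓ] at h1 hlog2 h2 ⊢
  have h3 : Real.log P ^ J ≤ ℓ ^ J := pow_le_pow_left₀ hlogP hlog2 J
  have h4 : ℓ ≤ (32 * P) ^ e / e := by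
    rw [hℓ]
    exact Real.log_le_rpow_div (by positivity) he0
  have h5 : ℓ ^ (J + 3) ≤ 32 ^ (ε₁ / 8) / e ^ (J + 3) * P ^ (ε₁ / 8) := by
    calc ℓ ^ (J + 3) ≤ ((32 * P) ^ e / e) ^ (J + 3) := pow_le_pow_left₀ (by linarith) h4 _
      _ = 32 ^ (ε₁ / 8) / e ^ (J + 3) * P ^ (ε₁ / 8) := by
        rw [div_pow, ← Real.rpow_natCast ((32 * P) ^ e), ← Real.rpow_mul (by positivity),
          Real.mul_rpow (by norm_num) hP0.le]
        have e3 : e * ((J + 3 : ℕ) : ℝ) = ε₁ / 8 := by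
          rw [he]
          push_cast
          have : ((J : ℝ) + 3) ≠ 0 := by positivity
          field_simp
        rw [e3]
        ring
  have h6 : 0 ≤ 1 + Real.log (MM J b P) := by
    have := Real.log_nonneg (MM_ge J b P hb hP).2
    linarith
  calc 1000 * P ^ δ * (K * Real.log P ^ J * (4 * (8 * P ^ δ) ^ 2) ^ (2 * J) *
      (16 / η ^ 2) * ((4 * J + 1) * (32 ^ b * ℓ ^ 2))) * (1 + Real.log (MM J b P))
      = 1000 * K * (P ^ δ * (4 * (8 * P ^ δ) ^ 2) ^ (2 * J)) * (16 / η ^ 2) *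
        ((4 * J + 1) * 32 ^ b) * ℓ ^ 2 * Real.log P ^ J * (1 + Real.log (MM J b P)) := by ring
    _ = 1000 * K * (256 ^ (2 * J) * P ^ (ε₁ / 8)) * (16 / η ^ 2) *
        ((4 * J + 1) * 32 ^ b) * ℓ ^ 2 * Real.log P ^ J * (1 + Real.log (MM J b P)) := by rw [e1]
    _ ≤ 1000 * K * (256 ^ (2 * J) * P ^ (ε₁ / 8)) * (16 / η ^ 2) *
        ((4 * J + 1) * 32 ^ b) * ℓ ^ 2 * ℓ ^ J * ((4 * J + 4 + b) * ℓ) := by
        refine mul_le_mul (mul_le_mul_of_nonneg_left h3 ?_) h2 h6 ?_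
        · positivity
        · have : 0 ≤ ℓ := by linarith
          positivity
    _ = D * ℓ ^ (J + 3) * P ^ (ε₁ / 8) := by rw [hD]; ring
    _ ≤ D * (32 ^ (ε₁ / 8) / e ^ (J + 3) * P ^ (ε₁ / 8)) * P ^ (ε₁ / 8) := by
        refine mul_le_mul_of_nonneg_right (mul_le_mul_of_nonneg_left h5 hD0) (by positivity)
    _ = D * (32 ^ (ε₁ / 8) / e ^ (J + 3)) * (P ^ (ε₁ / 8) * P ^ (ε₁ / 8)) := by ring
    _ = D * (32 ^ (ε₁ / 8) / e ^ (J + 3)) * P ^ (ε₁ / 4) := by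
        rw [← Real.rpow_add hP0]
        congr 2
        ring
    _ ≤ P ^ (ε₁ / 4) * P ^ (ε₁ / 4) := mul_le_mul_of_nonneg_right hev' (by positivity)
    _ = P ^ (ε₁ / 2) := by
        rw [← Real.rpow_add hP0]
        congr 1
        ring

/-- the mean value for almost every `θ ∈ [-1, 1]` -/
theorem mvx_R (hCt : S_COUNTX) (hN : S_NUMX) (hI : S_INT) (J : ℕ) (m η r ε : ℝ) (hη0 : 0 < η)
    (hη1 : η ≤ 1) (hm : 1 < m - 3 * η) (hr : 0 < r) (hra : r < 1 - 1 / (m - 3 * η))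
    (hrJ : r ^ J ≤ 1 / 2)
    (hε : 10 * η + 2 * (m + 3 * η) * ((m + 3 * η) * (1 - r) - 1) < ε) :
    ∃ δ : ℝ, 0 < δ ∧ ∀ᵐ θ : ℝ, |θ| ≤ 1 → ∀ᶠ l : ℕ in atTop,
      ∀ Y : Finset ((Fin J → ℕ × ℕ) × (Fin J → ℕ × ℕ)),
      Y ⊆ blkx r J ((2 : ℝ) ^ l) ×ˢ blkx r J ((2 : ℝ) ^ l) →
      (∀ p ∈ Y, |gb (Ph m η θ) p.1 - gb (Ph m η θ) p.2| ≤ ((2 : ℝ) ^ l) ^ δ) →
      (#Y : ℝ) ≤ (#(blkx r J ((2 : ℝ) ^ l)) : ℝ) ^ 2 * ((2 : ℝ) ^ l) ^ (-(m + η) + ε) := by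
  obtain ⟨K, P₀, hK, hP₀, hnb⟩ := nbx hCt hN J m η r hη0 hη1 hm hr hra hrJ
  obtain ⟨E, hE⟩ : ∃ E : ℝ, E = 2 * (m + 3 * η) * ((m + 3 * η) * (1 - r) - 1) := ⟨_, rfl⟩
  obtain ⟨ε₁, hε₁⟩ : ∃ ε₁ : ℝ, ε₁ = ε - 10 * η - E := ⟨_, rfl⟩
  have hε₁0 : 0 < ε₁ := by rw [hε₁, hE]; linarith
  obtain ⟨δ, hδ⟩ : ∃ δ : ℝ, δ = ε₁ / (8 * (4 * J + 1)) := ⟨_, rfl⟩
  have hδ0 : 0 < δ := by rw [hδ]; positivity
  have hb0 : 0 ≤ m + 3 * η := by linarith
  refine ⟨δ, hδ0, ?_⟩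
  have hpow : Tendsto (fun l : ℕ => (2 : ℝ) ^ l) atTop atTop :=
    tendsto_pow_atTop_atTop_of_one_lt (by norm_num)
  have hfac := hpow.eventually (final_x J K η (m + 3 * η) ε₁ δ hK hη0 hb0 hε₁0 hδ)
  have hbc := Pool.Agent.L7h37.WA.s_BC ℝ volume ((Fin J → ℕ × ℕ) × (Fin J → ℕ × ℕ))
    (fun l => blkx r J ((2 : ℝ) ^ l) ×ˢ blkx r J ((2 : ℝ) ^ l))
    (fun l p => {θ : ℝ | |θ| ≤ 1 ∧ |gb (Ph m η θ) p.1 - gb (Ph m η θ) p.2| ≤ ((2 : ℝ) ^ l) ^ δ})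
    (fun l => (#(blkx r J ((2 : ℝ) ^ l)) : ℝ) ^ 2 * ((2 : ℝ) ^ l) ^ (-(m + η) + ε))
    (fun l => ((2 : ℝ) ^ l) ^ (-(ε₁ / 2))) ?_ ?_ ?_ ?_ ?_
  · filter_upwards [hbc] with θ hθ hθR
    filter_upwards [hθ] with l hl Y hY hYc
    exact hl Y hY (fun p hp => ⟨hθR, hYc p hp⟩)
  · intro l p _
    have hc : Continuous (fun θ : ℝ => gb (Ph m η θ) p.1 - gb (Ph m η θ) p.2) := by
      apply Continuous.sub
      · exact continuous_iff_continuousAt.2 fun θ =>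
          (gb_deriv J (Ph m η) (Ph1 m η) (fun θ x => Ph_deriv m η x θ) p.1 θ).continuousAt
      · exact continuous_iff_continuousAt.2 fun θ =>
          (gb_deriv J (Ph m η) (Ph1 m η) (fun θ x => Ph_deriv m η x θ) p.2 θ).continuousAt
    exact ((isClosed_le continuous_abs continuous_const).inter
      (isClosed_le hc.abs continuous_const)).measurableSet
  · intro l
    have h1 : (1 : ℝ) ≤ (2 : ℝ) ^ l := one_le_pow₀ (by norm_num)
    have h4 := blkx_card_pos r hr J _ h1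
    positivity
  · intro l
    positivity
  · have h1 : ∀ l : ℕ, ((2 : ℝ) ^ l) ^ (-(ε₁ / 2)) = ((2 : ℝ) ^ (-(ε₁ / 2))) ^ l := by
      intro l
      rw [← Real.rpow_natCast, ← Real.rpow_natCast, ← Real.rpow_mul (by norm_num),
        ← Real.rpow_mul (by norm_num), mul_comm]
    simp only [h1]
    apply summable_geometric_of_lt_one (by positivity)
    exact Real.rpow_lt_one_of_one_lt_of_neg (by norm_num) (by linarith)
  · filter_upwards [hpow.eventually (eventually_ge_atTop P₀), hfac] with l hl hfl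
    obtain ⟨P, hP⟩ : ∃ P : ℝ, P = (2 : ℝ) ^ l := ⟨_, rfl⟩
    rw [← hP] at hl hfl ⊢
    have hP1 : 1 ≤ P := hP₀.trans hl
    have hP0 : 0 < P := by linarith
    obtain ⟨hd, hcnt⟩ := hnb P hl
    obtain ⟨b, hbb⟩ : ∃ b : ℝ, b = m + 3 * η := ⟨_, rfl⟩
    obtain ⟨a, haa⟩ : ∃ a : ℝ, a = m - 3 * η := ⟨_, rfl⟩
    rw [← hbb] at hd hcnt hfl hE hb0
    rw [← haa] at hcnt
    obtain ⟨hMb, hM1⟩ := MM_ge J b P hb0 hP1
    have hL1 : 1 ≤ P ^ δ := Real.one_le_rpow hP1 hδ0.le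
    have hJ : (0 : ℝ) ≤ J := Nat.cast_nonneg J
    have hlogP : 0 ≤ Real.log P := Real.log_nonneg hP1
    have hA0 : 0 ≤ AA J K (P ^ δ) η a b r P := by
      unfold AA
      positivity
    have hint := hI ((Fin J → ℕ × ℕ) × (Fin J → ℕ × ℕ)) (blkx r J P ×ˢ blkx r J P)
      (fun p θ => gb (Ph m η θ) p.1 - gb (Ph m η θ) p.2)
      (fun p θ => gb (Ph1 m η θ) p.1 - gb (Ph1 m η θ) p.2)
      (fun p θ => gb (Ph2 m η θ) p.1 - gb (Ph2 m η θ) p.2) 1 (MM J b P) (P ^ δ)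
      (AA J K (P ^ δ) η a b r P) (MM J b P)
      (fun p θ => (gb_deriv J (Ph m η) (Ph1 m η) (fun θ x => Ph_deriv m η x θ) p.1 θ).sub
        (gb_deriv J (Ph m η) (Ph1 m η) (fun θ x => Ph_deriv m η x θ) p.2 θ))
      (fun p θ => (gb_deriv J (Ph1 m η) (Ph2 m η) (fun θ x => Ph1_deriv m η x θ) p.1 θ).sub
        (gb_deriv J (Ph1 m η) (Ph2 m η) (fun θ x => Ph1_deriv m η x θ) p.2 θ))
      le_rfl hM1 hL1 hA0 (by
        apply Real.sqrt_le_iff.2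
        constructor
        · linarith
        · nlinarith) (by
        intro p hp θ hθ
        obtain ⟨hp1, hp2⟩ := mem_product.1 hp
        exact (hd θ (by linarith) _ hp1 _ hp2).1) (by
        intro p hp θ hθ
        obtain ⟨hp1, hp2⟩ := mem_product.1 hp
        exact (hd θ (by linarith) _ hp1 _ hp2).2) (by
        intro θ hθ T hT1 hT2 X hX hXc
        exact hcnt (P ^ δ) hL1 θ (by linarith) T hT1 X hX hXc)
    refine hint.trans (ENNReal.ofReal_le_ofReal ?_)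
    -- the final comparison
    unfold AA
    obtain ⟨N, hNdef⟩ : ∃ N : ℝ, N = (#(blkx r J P) : ℝ) := ⟨_, rfl⟩
    rw [← hNdef]
    obtain ⟨Lg, hLg⟩ : ∃ Lg : ℝ, Lg = 1 + Real.log (MM J b P) := ⟨_, rfl⟩
    rw [← hLg] at hfl ⊢
    have e1 : MM J b P / P ^ (2 * a) =
        ((4 * J + 1) * (32 ^ b * Real.log (32 * P) ^ 2)) * P ^ (b - 2 * a) := by
      unfold MM
      rw [Real.mul_rpow (by norm_num) hP0.le, Real.rpow_sub hP0]
      ring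
    rw [e1, ← hE]
    have e2 : P ^ (-(ε₁ / 2)) * (N ^ 2 * P ^ (-(m + η) + ε)) =
        N ^ 2 * P ^ (b - 2 * a) * P ^ E * P ^ (ε₁ / 2) := by
      have e3 : P ^ (-(ε₁ / 2)) * P ^ (-(m + η) + ε) = P ^ (b - 2 * a) * P ^ E * P ^ (ε₁ / 2) := by
        rw [← Real.rpow_add hP0, ← Real.rpow_add hP0, ← Real.rpow_add hP0]
        congr 1
        rw [hbb, haa, hε₁]
        ring
      calc P ^ (-(ε₁ / 2)) * (N ^ 2 * P ^ (-(m + η) + ε)) =
          N ^ 2 * (P ^ (-(ε₁ / 2)) * P ^ (-(m + η) + ε)) := by ring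
        _ = _ := by rw [e3]; ring
    rw [e2]
    calc 1000 * 1 * P ^ δ * (N ^ 2 * (K * Real.log P ^ J * (4 * (8 * P ^ δ) ^ 2) ^ (2 * J) *
          (16 / η ^ 2) * ((4 * J + 1) * (32 ^ b * Real.log (32 * P) ^ 2) * P ^ (b - 2 * a)) *
          P ^ E)) * Lg
        = N ^ 2 * P ^ (b - 2 * a) * P ^ E *
          (1000 * P ^ δ * (K * Real.log P ^ J * (4 * (8 * P ^ δ) ^ 2) ^ (2 * J) *
          (16 / η ^ 2) * ((4 * J + 1) * (32 ^ b * Real.log (32 * P) ^ 2))) * Lg) := by ring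
      _ ≤ N ^ 2 * P ^ (b - 2 * a) * P ^ E * P ^ (ε₁ / 2) :=
          mul_le_mul_of_nonneg_left hfl (by positivity)

/-- the mean value for almost every exponent in `[m - η, m + η]` -/
theorem mvx_m (hCt : S_COUNTX) (hN : S_NUMX) (hI : S_INT) (J : ℕ) (m η r ε : ℝ) (hη0 : 0 < η)
    (hη1 : η ≤ 1) (hm : 1 < m - 3 * η) (hr : 0 < r) (hra : r < 1 - 1 / (m - 3 * η))
    (hrJ : r ^ J ≤ 1 / 2)
    (hε : 10 * η + 2 * (m + 3 * η) * ((m + 3 * η) * (1 - r) - 1) < ε) :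
    ∀ᵐ α : ℝ, |α - m| ≤ η →
      MVBx α ε (Fin J → ℕ × ℕ) (fun l => blkx r J ((2 : ℝ) ^ l)) (gb (fun u => u ^ α)) := by
  obtain ⟨δ, hδ, h⟩ := mvx_R hCt hN hI J m η r ε hη0 hη1 hm hr hra hrJ hε
  have h1 := ae_affine _ h (-m / η) (1 / η) (by positivity)
  filter_upwards [h1] with α hα hαm
  have hr1 : r < 1 := by
    have : 0 < 1 / (m - 3 * η) := by apply one_div_pos.2; linarith
    linarith
  have e1 : -m / η + 1 / η * α = (α - m) / η := by ring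
  rw [e1] at hα
  have e2 : m + η * ((α - m) / η) = α := by field_simp; ring
  have h2 : |(α - m) / η| ≤ 1 := by
    rw [abs_div, abs_of_pos hη0, div_le_one hη0]
    exact hαm
  refine ⟨δ, hδ, ?_⟩
  filter_upwards [hα h2] with l hl Y hY hYc
  have hP1 : (1 : ℝ) ≤ (2 : ℝ) ^ l := one_le_pow₀ (by norm_num)
  have hpos : ∀ x ∈ blkx r J ((2 : ℝ) ^ l),
      gb (Ph m η ((α - m) / η)) x = gb (fun u => u ^ α) x := by
    intro x hx
    have h4 := blkx_range r hr hr1 J _ hP1 x hx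
    apply gb_congr'
    intro i
    obtain ⟨u1, u2, v1, v2⟩ := h4 i
    have h5 := Ph_eq m η ((α - m) / η) (x i).1 (by linarith)
    have h6 := Ph_eq m η ((α - m) / η) (x i).2 (by linarith)
    rw [e2] at h5 h6
    exact ⟨h5, h6⟩
  refine (hl Y hY ?_).trans ?_
  · intro p hp
    obtain ⟨hp1, hp2⟩ := mem_product.1 (hY hp)
    rw [hpos _ hp1, hpos _ hp2]
    exact hYc p hp
  · apply mul_le_mul_of_nonneg_left _ (by positivity)
    apply Real.rpow_le_rpow_of_exponent_le hP1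
    have := (abs_le.1 hαm).2
    linarith

/-- **MVX** -/
theorem mvx_of (hCt : S_COUNTX) (hN : S_NUMX) (hI : S_INT) : S_MVX := by
  intro J
  have hall : ∀ᵐ α : ℝ, ∀ q : ℚ × ℚ × ℚ × ℚ, 0 < (q.2.1 : ℝ) → (q.2.1 : ℝ) ≤ 1 →
      1 < (q.1 : ℝ) - 3 * q.2.1 → 0 < (q.2.2.1 : ℝ) →
      (q.2.2.1 : ℝ) < 1 - 1 / ((q.1 : ℝ) - 3 * q.2.1) → (q.2.2.1 : ℝ) ^ J ≤ 1 / 2 →
      10 * (q.2.1 : ℝ) + 2 * ((q.1 : ℝ) + 3 * q.2.1) *
        (((q.1 : ℝ) + 3 * q.2.1) * (1 - q.2.2.1) - 1) < (q.2.2.2 : ℝ) →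
      |α - q.1| ≤ q.2.1 →
      MVBx α q.2.2.2 (Fin J → ℕ × ℕ) (fun l => blkx (q.2.2.1 : ℝ) J ((2 : ℝ) ^ l))
        (gb (fun u => u ^ α)) := by
    rw [ae_all_iff]
    intro q
    by_cases h : 0 < (q.2.1 : ℝ) ∧ (q.2.1 : ℝ) ≤ 1 ∧
      1 < (q.1 : ℝ) - 3 * q.2.1 ∧ 0 < (q.2.2.1 : ℝ) ∧
      (q.2.2.1 : ℝ) < 1 - 1 / ((q.1 : ℝ) - 3 * q.2.1) ∧ (q.2.2.1 : ℝ) ^ J ≤ 1 / 2 ∧
      10 * (q.2.1 : ℝ) + 2 * ((q.1 : ℝ) + 3 * q.2.1) *
        (((q.1 : ℝ) + 3 * q.2.1) * (1 - q.2.2.1) - 1) < (q.2.2.2 : ℝ)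
    · obtain ⟨h1, h2, h3, h4, h5, h6, h7⟩ := h
      filter_upwards [mvx_m hCt hN hI J q.1 q.2.1 q.2.2.1 q.2.2.2 h1 h2 h3 h4 h5 h6 h7]
        with α hα _ _ _ _ _ _ _ h8
      exact hα h8
    · filter_upwards with α h1 h2 h3 h4 h5 h6 h7
      exact absurd ⟨h1, h2, h3, h4, h5, h6, h7⟩ h
  filter_upwards [hall] with α hα h1 hJ ε hε
  -- choice of the rational parameters
  have hα0 : 0 < α := by linarith
  have hone : 0 < 1 - 1 / α := by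
    have : 1 / α < 1 := by rw [div_lt_one hα0]; exact h1
    linarith
  obtain ⟨e, he0, heε⟩ := exists_rat_btwn hε
  -- r
  have hr : ∀ᶠ r : ℝ in nhds (1 - 1 / α), 0 < r ∧ 2 * α * (α * (1 - r) - 1) < e := by
    have c1 : ContinuousAt (fun r : ℝ => 2 * α * (α * (1 - r) - 1)) (1 - 1 / α) := by fun_prop
    have e1 : 2 * α * (α * (1 - (1 - 1 / α)) - 1) = 0 := by field_simp; ring
    exact (eventually_gt_nhds hone).and
      (c1.eventually (gt_mem_nhds (by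
        show 2 * α * (α * (1 - (1 - 1 / α)) - 1) < (e : ℝ)
        rw [e1]
        exact he0)))
  obtain ⟨t, ht, hball⟩ := Metric.eventually_nhds_iff.1 hr
  obtain ⟨r, hr1, hr2⟩ := exists_rat_btwn (show max (1 - 1 / α - t) 0 < 1 - 1 / α by
    exact max_lt (by linarith) hone)
  obtain ⟨hr0, hre⟩ := hball (y := (r : ℝ)) (by
    rw [Real.dist_eq, abs_lt]
    have := (le_max_left (1 - 1 / α - t) 0).trans_lt hr1
    constructor <;> linarith)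
  -- η and m
  have hη : ∀ᶠ p : ℝ × ℝ in nhds ((α, 0) : ℝ × ℝ), 1 < p.1 - 3 * p.2 ∧
      (r : ℝ) < 1 - 1 / (p.1 - 3 * p.2) ∧
      10 * p.2 + 2 * (p.1 + 3 * p.2) * ((p.1 + 3 * p.2) * (1 - r) - 1) < (e : ℝ) := by
    have c0 : ContinuousAt (fun p : ℝ × ℝ => p.1 - 3 * p.2) (α, 0) := by fun_prop
    have c1 : ContinuousAt (fun p : ℝ × ℝ => 1 - 1 / (p.1 - 3 * p.2)) (α, 0) := by
      refine ContinuousAt.sub continuousAt_const (ContinuousAt.div continuousAt_const c0 ?_)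
      simp only [mul_zero, sub_zero]
      exact hα0.ne'
    have c2 : ContinuousAt (fun p : ℝ × ℝ =>
        10 * p.2 + 2 * (p.1 + 3 * p.2) * ((p.1 + 3 * p.2) * (1 - (r : ℝ)) - 1)) (α, 0) := by
      fun_prop
    refine (c0.eventually (lt_mem_nhds ?_)).and
      ((c1.eventually (lt_mem_nhds ?_)).and (c2.eventually (gt_mem_nhds ?_)))
    · simpa using h1
    · simpa using hr2
    · simp only [mul_zero, add_zero, zero_add]
      exact hre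
  obtain ⟨t', ht', hball'⟩ := Metric.eventually_nhds_iff.1 hη
  obtain ⟨η, hη0, hηt⟩ := exists_rat_btwn (show 0 < min t' 1 from lt_min ht' one_pos)
  have hηt' : (η : ℝ) < t' := hηt.trans_le (min_le_left _ _)
  have hη1 : (η : ℝ) < 1 := hηt.trans_le (min_le_right _ _)
  have hη0' : (0 : ℝ) < η := by exact_mod_cast hη0
  obtain ⟨m, hm1, hm2⟩ := exists_rat_btwn (show α - η < α + η by linarith)
  obtain ⟨g1, g2, g3⟩ := hball' (y := ((m : ℝ), (η : ℝ))) (by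
    rw [Prod.dist_eq, max_lt_iff, Real.dist_eq, Real.dist_eq]
    constructor
    · dsimp only
      rw [abs_lt]
      constructor <;> linarith
    · dsimp only
      rw [sub_zero, abs_of_pos hη0']
      exact hηt')
  dsimp only at g1 g2 g3
  have hrJ : (r : ℝ) ^ J ≤ 1 / 2 := (pow_le_pow_left₀ hr0.le hr2.le J).trans hJ
  have hrlt : (r : ℝ) < 1 := by
    have : 0 < 1 / α := by positivity
    linarith
  obtain ⟨δ, hδ, hfin⟩ := hα (m, η, r, e) hη0' hη1.le g1 hr0 g2 hrJ g3 (by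
    rw [abs_le]
    constructor <;> linarith)
  refine ⟨r, hr0, hrlt, δ, hδ, ?_⟩
  filter_upwards [hfin] with l hl Y hY hYc
  refine (hl Y hY hYc).trans ?_
  apply mul_le_mul_of_nonneg_left _ (by positivity)
  apply Real.rpow_le_rpow_of_exponent_le (one_le_pow₀ (by norm_num))
  linarith

end Pool.Agent.L7h27.EX
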