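import Mathlib
import Pool.Agent.L7h27.EX.MvC
import Pool.Agent.L7h67.WB.Res

/-!
# Project EX: assembly
-/

set_option autoImplicit false

namespace Pool.Agent.L7h27.EX

open Finset MeasureTheory Filter
open Pool.Agent.L7h67.WA (gs ev_half ev_nat_half floor_close floor_rho)
open Pool.Agent.L7h67.WB (gb gb_bound S_INT eqvA eqvB gluA gluB gluA_sum gluB_sum gluA_ge gluB_ge)

/-- the conclusions for one exponent -/
def Concl (J : ℕ) (m : ℝ) : Prop :=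
  ∃ c : ℝ, 0 < c ∧
    (∀ᶠ n : ℕ in atTop, ∃ x : Fin (4 * J + 1) → ℕ, (∀ i, 1 ≤ x i) ∧
      ∑ i, ⌊(x i : ℝ) ^ m⌋ = (n : ℤ)) ∧
    (∀ᶠ τ : ℝ in atTop, ∃ x : Fin (4 * J + 1) → ℕ, (∀ i, 1 ≤ x i) ∧
      |∑ i, (x i : ℝ) ^ m - τ| < τ ^ (-c)) ∧
    (∀ᶠ N : ℕ in atTop, ∀ Z : Finset ℕ, (∀ n ∈ Z, n ≤ N) →
      (∀ n ∈ Z, ¬ ∃ x : Fin (2 * J + 1) → ℕ, (∀ i, 1 ≤ x i) ∧
        ∑ i, ⌊(x i : ℝ) ^ m⌋ = (n : ℤ)) →
      (#Z : ℝ) ≤ (N : ℝ) ^ (1 - c))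

/-- the block is good -/
lemma good_of (hGMB : S_GMBX) (m ε ε' r : ℝ) (J : ℕ) (hm : 0 ≤ m) (hr : 0 < r) (hr1 : r < 1)
    (hM : MVBx m ε (Fin J → ℕ × ℕ) (fun l => blkx r J ((2 : ℝ) ^ l)) (gb (fun u => u ^ m)))
    (hε : ε < ε') (ρ : ℝ → ℝ) (hρ : ∀ t, |ρ t - t| ≤ 1) :
    GoodBlkx m ε' (Fin J → ℕ × ℕ) (fun l => blkx r J ((2 : ℝ) ^ l))
      (gb (fun u => ρ (u ^ m))) := by
  have hclose : ∀ x : Fin J → ℕ × ℕ,
      |gb (fun u => ρ (u ^ m)) x - gb (fun u => u ^ m) x| ≤ 2 * J := by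
    intro x
    unfold gb
    rw [← sum_sub_distrib]
    refine (abs_sum_le_sum_abs _ _).trans ?_
    have h1 : ∀ i ∈ (univ : Finset (Fin J)), |ρ (((x i).1 : ℝ) ^ m) + ρ (((x i).2 : ℝ) ^ m) -
        (((x i).1 : ℝ) ^ m + ((x i).2 : ℝ) ^ m)| ≤ 2 := by
      intro i _
      have e1 : ρ (((x i).1 : ℝ) ^ m) + ρ (((x i).2 : ℝ) ^ m) -
          (((x i).1 : ℝ) ^ m + ((x i).2 : ℝ) ^ m) =
          (ρ (((x i).1 : ℝ) ^ m) - ((x i).1 : ℝ) ^ m) +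
          (ρ (((x i).2 : ℝ) ^ m) - ((x i).2 : ℝ) ^ m) := by ring
      rw [e1]
      refine (abs_add_le _ _).trans ?_
      linarith [hρ (((x i).1 : ℝ) ^ m), hρ (((x i).2 : ℝ) ^ m)]
    refine (sum_le_sum h1).trans ?_
    rw [sum_const, card_univ, Fintype.card_fin, nsmul_eq_mul]
    exact le_of_eq (by ring)
  refine ⟨?_, ?_, ?_⟩
  · refine ⟨2 * J * 32 ^ m + 2 * J, ?_⟩
    filter_upwards with l x hx
    have hP1 : (1 : ℝ) ≤ (2 : ℝ) ^ l := one_le_pow₀ (by norm_num)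
    obtain ⟨P, hP⟩ : ∃ P : ℝ, P = (2 : ℝ) ^ l := ⟨_, rfl⟩
    rw [← hP] at hP1 hx ⊢
    have hP0 : 0 < P := by linarith
    have h2 : |gb (fun u => u ^ m) x| ≤ 2 * J * (32 ^ m * P ^ m) := by
      apply gb_bound
      intro i
      obtain ⟨a, b, c, d⟩ := blkx_range r hr hr1 J P hP1 x hx i
      have h3 : ∀ u : ℝ, 1 ≤ u → u ≤ 32 * P → |u ^ m| ≤ 32 ^ m * P ^ m := by
        intro u hu1 hu2
        rw [abs_of_nonneg (by positivity), ← Real.mul_rpow (by norm_num) hP0.le]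
        exact Real.rpow_le_rpow (by linarith) hu2 hm
      exact ⟨h3 _ a b, h3 _ c d⟩
    have h8 := hclose x
    have h9 : |gb (fun u => ρ (u ^ m)) x| ≤ |gb (fun u => u ^ m) x| + 2 * J := by
      have := abs_sub_abs_le_abs_sub (gb (fun u => ρ (u ^ m)) x) (gb (fun u => u ^ m) x)
      linarith
    have h10 : (1 : ℝ) ≤ P ^ m := Real.one_le_rpow hP1 hm
    have h11 : (2 : ℝ) * J ≤ 2 * J * P ^ m := le_mul_of_one_le_right (by positivity) h10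
    calc |gb (fun u => ρ (u ^ m)) x| ≤ 2 * J * (32 ^ m * P ^ m) + 2 * J := by linarith
      _ ≤ 2 * J * (32 ^ m * P ^ m) + 2 * J * P ^ m := by linarith
      _ = (2 * J * 32 ^ m + 2 * J) * P ^ m := by ring
  · filter_upwards with l
    have h1 : (1 : ℝ) ≤ (2 : ℝ) ^ l := one_le_pow₀ (by norm_num)
    have h4 := blkx_card_pos r hr J _ h1
    exact card_pos.1 (by exact_mod_cast h4)
  · exact hGMB m ε ε' (Fin J → ℕ × ℕ) (fun l => blkx r J ((2 : ℝ) ^ l)) (gb (fun u => u ^ m))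
      (gb (fun u => ρ (u ^ m))) (2 * J) hclose hM hε

theorem concl_of (hMVX : S_MVX) (hSUP : S_SUPX) (hFINE : S_FINEX) (hFINE2 : S_FINE2X)
    (hGMB : S_GMBX) (J : ℕ) :
    ∀ᵐ m : ℝ, 1 < m → (1 - 1 / m) ^ J ≤ 1 / 2 → Concl J m := by
  have hnat : ∀ᵐ m : ℝ, ∀ n : ℕ, (n : ℝ) ≠ m := by
    rw [ae_all_iff]
    intro n
    filter_upwards [compl_mem_ae_iff.2 (measure_singleton (n : ℝ))] with m hm h
    exact hm h.symm
  filter_upwards [hMVX J, hnat] with m hmv hnm hm hJ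
  obtain ⟨σ, hσ0, hσ4, hsup⟩ := hSUP m hm hnm
  obtain ⟨r, hr0, hr1, hMV⟩ := hmv hm hJ (σ / 8) (by linarith)
  obtain ⟨c2, hc2, h2⟩ := hFINE2 m σ hm hσ0 hσ4 hsup
  have h1 := hFINE m σ hm hσ0 hσ4 hsup
  obtain ⟨c1, hc1⟩ : ∃ c1 : ℝ, c1 = σ / (16 * m) := ⟨_, rfl⟩
  have hc10 : 0 < c1 := by rw [hc1]; positivity
  rw [← hc1] at h1
  obtain ⟨e⟩ := eqvA J
  obtain ⟨e'⟩ := eqvB J
  have hcoord : ∀ l : ℕ, ∀ x ∈ blkx r J ((2 : ℝ) ^ l), ∀ i, 1 ≤ (x i).1 ∧ 1 ≤ (x i).2 := by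
    intro l x hx i
    obtain ⟨a, b, c, d⟩ := blkx_range r hr0 hr1 J _ (one_le_pow₀ (by norm_num)) x hx i
    exact ⟨by exact_mod_cast a, by exact_mod_cast c⟩
  have hgf := good_of hGMB m (σ / 8) (σ / 4) r J (by linarith) hr0 hr1 hMV (by linarith)
    (fun t => ((⌊t⌋ : ℤ) : ℝ)) floor_rho
  have hgi := good_of hGMB m (σ / 8) (σ / 4) r J (by linarith) hr0 hr1 hMV (by linarith)
    (fun t => t) (fun t => by rw [sub_self, abs_zero]; exact zero_le_one)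
  refine ⟨min c1 c2, lt_min hc10 hc2, ?_, ?_, ?_⟩
  · have h3 := h1 _ _ _ _ _ _ hgf hgf 1
    have h4 := ev_nat_half.eventually (h3.and (ev_half c1 hc10))
    filter_upwards [h4] with n hn
    obtain ⟨⟨l, hl', x, hx, y, hy, z, hz, hxyz⟩, hhalf⟩ := hn
    refine ⟨gluA e x y z, gluA_ge e x y z 1 (hcoord l x hx) (hcoord l y hy) hz, ?_⟩
    rw [gluA_sum e x y z (fun u => ⌊(u : ℝ) ^ m⌋)]
    apply floor_close
    unfold gb at hxyz
    push_cast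
    exact hxyz.trans hhalf
  · have h3 := h1 _ _ _ _ _ _ hgi hgi 1
    filter_upwards [h3, eventually_ge_atTop 1] with τ hτ hτ1
    obtain ⟨l, hl', x, hx, y, hy, z, hz, hxyz⟩ := hτ
    refine ⟨gluA e x y z, gluA_ge e x y z 1 (hcoord l x hx) (hcoord l y hy) hz, ?_⟩
    rw [gluA_sum e x y z (fun u => (u : ℝ) ^ m)]
    unfold gb at hxyz
    refine hxyz.trans_le (Real.rpow_le_rpow_of_exponent_le hτ1 ?_)
    have := min_le_left c1 c2
    linarith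
  · have h3 := h2 _ _ _ hgf 1 (1 / 2)
    have h4 := tendsto_natCast_atTop_atTop.eventually (ev_half c2 hc2)
    filter_upwards [h3, h4, eventually_ge_atTop 1] with N hN hhalf hN1 Z hZ hZn
    refine (hN Z hZ ?_).trans ?_
    · intro n hn l hl' x hx z hz
      by_contra hcon
      push Not at hcon
      apply hZn n hn
      refine ⟨gluB e' x z, gluB_ge e' x z 1 (hcoord l x hx) hz, ?_⟩
      rw [gluB_sum e' x z (fun u => ⌊(u : ℝ) ^ m⌋)]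
      apply floor_close
      unfold gb at hcon
      push_cast
      exact hcon.trans hhalf
    · apply Real.rpow_le_rpow_of_exponent_le (by exact_mod_cast hN1)
      have := min_le_right c1 c2
      linarith

/-- `(1 - 1/m)^J ≤ 1/2` for `J ≥ m log 2` -/
lemma pow_half (m : ℝ) (J : ℕ) (hm : 1 < m) (hJ : Real.log 2 * m ≤ J) : (1 - 1 / m) ^ J ≤ 1 / 2 := by
  have hm0 : 0 < m := by linarith
  have h0 : 0 ≤ 1 - 1 / m := by
    have : 1 / m ≤ 1 := by rw [div_le_one hm0]; exact hm.le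
    linarith
  have h1 : 1 - 1 / m ≤ Real.exp (-(1 / m)) := by
    have := Real.add_one_le_exp (-(1 / m))
    linarith
  calc (1 - 1 / m) ^ J ≤ Real.exp (-(1 / m)) ^ J := pow_le_pow_left₀ h0 h1 J
    _ = Real.exp (-(J / m)) := by
      rw [← Real.exp_nat_mul]
      congr 1
      ring
    _ ≤ Real.exp (-Real.log 2) := by
      apply Real.exp_le_exp.2
      have : Real.log 2 ≤ J / m := by rw [le_div_iff₀ hm0]; exact hJ
      linarith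
    _ = 1 / 2 := by rw [Real.exp_neg, Real.exp_log (by norm_num)]; norm_num

/-- extra variables equal to `1` -/
lemma pad {s t : ℕ} (hst : s ≤ t) (x : Fin s → ℕ) (hx : ∀ i, 1 ≤ x i) :
    ∃ y : Fin t → ℕ, (∀ i, 1 ≤ y i) ∧ ∀ {R : Type} [AddCommMonoidWithOne R] (f : ℕ → R),
      f 1 = 1 → ∑ i, f (y i) = ∑ i, f (x i) + ((t - s : ℕ) : R) := by
  obtain ⟨k, rfl⟩ := Nat.exists_eq_add_of_le hst
  refine ⟨Fin.append x (fun _ : Fin k => 1), ?_, ?_⟩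
  · intro i
    refine Fin.addCases (fun j => ?_) (fun j => ?_) i
    · rw [Fin.append_left]; exact hx j
    · rw [Fin.append_right]
  · intro R _ f hf
    rw [Fin.sum_univ_add]
    simp only [Fin.append_left, Fin.append_right, hf, sum_const, card_univ, Fintype.card_fin]
    rw [Nat.add_sub_cancel_left, nsmul_one]

/-- shifting the target by a constant changes the error only slightly -/
lemma ev_shift (c K : ℝ) (hc : 0 < c) :
    ∀ᶠ τ : ℝ in atTop, (τ - K) ^ (-c) ≤ τ ^ (-(c / 2)) := by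
  have h1 : ∀ᶠ τ : ℝ in atTop, (2 : ℝ) ^ c ≤ τ ^ (c / 2) :=
    (tendsto_rpow_atTop (by positivity)).eventually_ge_atTop _
  filter_upwards [h1, eventually_ge_atTop (2 * |K| + 1)] with τ h2 h3
  have hK : K ≤ |K| := le_abs_self K
  have hK0 : 0 ≤ |K| := abs_nonneg K
  have hτ : 0 < τ := by linarith
  have h4 : τ / 2 ≤ τ - K := by linarith
  have h5 : 0 < τ / 2 := by linarith
  have h6 : (τ - K) ^ (-c) ≤ (τ / 2) ^ (-c) :=
    Real.rpow_le_rpow_of_nonpos h5 h4 (by linarith)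
  refine h6.trans ?_
  rw [Real.div_rpow hτ.le (by norm_num), Real.rpow_neg (by norm_num : (0:ℝ) ≤ 2), div_inv_eq_mul]
  calc τ ^ (-c) * 2 ^ c ≤ τ ^ (-c) * τ ^ (c / 2) := mul_le_mul_of_nonneg_left h2 (by positivity)
    _ = τ ^ (-(c / 2)) := by
      rw [← Real.rpow_add hτ]
      congr 1
      ring

lemma natCast_floor_eq_intFloor' (t : ℝ) (ht : 0 ≤ t) : ((⌊t⌋₊ : ℕ) : ℤ) = ⌊t⌋ := by
  symm
  rw [Int.floor_eq_iff]
  push_cast
  exact ⟨Nat.floor_le ht, Nat.lt_floor_add_one t⟩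

/-- **the theorem** -/
theorem main_of (hMVX : S_MVX) (hSUP : S_SUPX) (hFINE : S_FINEX) (hFINE2 : S_FINE2X)
    (hGMB : S_GMBX) :
    ∀ᵐ α : ℝ, 1 < α →
      (∀ s : ℕ, 4 * Real.log 2 * α + 5 ≤ s → ∀ᶠ n : ℕ in atTop,
        ∃ x : Fin s → ℕ, (∀ i, 1 ≤ x i) ∧ ∑ i, ⌊(x i : ℝ) ^ α⌋₊ = n) ∧
      ∃ c : ℝ, 0 < c ∧
      (∀ s : ℕ, 4 * Real.log 2 * α + 5 ≤ s → ∀ᶠ τ : ℝ in atTop,
        ∃ x : Fin s → ℕ, (∀ i, 1 ≤ x i) ∧ |∑ i, (x i : ℝ) ^ α - τ| < τ ^ (-c)) ∧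
      (∀ s : ℕ, 2 * Real.log 2 * α + 3 ≤ s → ∀ᶠ N : ℕ in atTop,
        ({n : ℕ | n ≤ N ∧ ¬ ∃ x : Fin s → ℕ, (∀ i, 1 ≤ x i) ∧
          ∑ i, ⌊(x i : ℝ) ^ α⌋₊ = n}.ncard : ℝ) ≤ (N : ℝ) ^ (1 - c)) := by
  have hall : ∀ᵐ m : ℝ, ∀ J : ℕ, 1 < m → (1 - 1 / m) ^ J ≤ 1 / 2 → Concl J m := by
    rw [ae_all_iff]
    exact fun J => concl_of hMVX hSUP hFINE hFINE2 hGMB J
  filter_upwards [hall] with α hα hα1
  have hl2 : 0 < Real.log 2 := Real.log_pos (by norm_num)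
  obtain ⟨J, hJ⟩ : ∃ J : ℕ, J = ⌈Real.log 2 * α⌉₊ := ⟨_, rfl⟩
  have hJ1 : Real.log 2 * α ≤ J := by rw [hJ]; exact Nat.le_ceil _
  have hJ2 : (J : ℝ) < Real.log 2 * α + 1 := by
    rw [hJ]
    exact Nat.ceil_lt_add_one (by positivity)
  obtain ⟨c, hc, H1, H2, H3⟩ := hα J hα1 (pow_half α J hα1 hJ1)
  have hfl : ∀ {s : ℕ} (x : Fin s → ℕ), ((∑ i, ⌊(x i : ℝ) ^ α⌋₊ : ℕ) : ℤ) = ∑ i, ⌊(x i : ℝ) ^ α⌋ := by
    intro s x
    push_cast
    apply sum_congr rfl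
    intro i _
    exact natCast_floor_eq_intFloor' _ (by positivity)
  have hone : ⌊((1 : ℕ) : ℝ) ^ α⌋₊ = 1 := by simp
  have hs4 : ∀ s : ℕ, 4 * Real.log 2 * α + 5 ≤ s → 4 * J + 1 ≤ s := by
    intro s hs
    have : ((4 * J + 1 : ℕ) : ℝ) ≤ s := by push_cast; linarith
    exact_mod_cast this
  have hs2 : ∀ s : ℕ, 2 * Real.log 2 * α + 3 ≤ s → 2 * J + 1 ≤ s := by
    intro s hs
    have : ((2 * J + 1 : ℕ) : ℝ) ≤ s := by push_cast; linarith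
    exact_mod_cast this
  -- representation of `n` from one of `n - k`
  have hpadN : ∀ s t : ℕ, s ≤ t → ∀ n : ℕ, t - s ≤ n →
      (∃ x : Fin s → ℕ, (∀ i, 1 ≤ x i) ∧ ∑ i, ⌊(x i : ℝ) ^ α⌋ = ((n - (t - s) : ℕ) : ℤ)) →
      ∃ x : Fin t → ℕ, (∀ i, 1 ≤ x i) ∧ ∑ i, ⌊(x i : ℝ) ^ α⌋₊ = n := by
    intro s t hst n hn ⟨x, hx, hxs⟩
    obtain ⟨y, hy, hys⟩ := pad hst x hx
    refine ⟨y, hy, ?_⟩
    have h1 := hys (R := ℕ) (fun u => ⌊(u : ℝ) ^ α⌋₊) hone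
    rw [h1]
    rw [← hfl x] at hxs
    have h2 : ∑ i, ⌊(x i : ℝ) ^ α⌋₊ = n - (t - s) := by exact_mod_cast hxs
    rw [h2, Nat.cast_id]
    omega
  obtain ⟨c', hc'⟩ : ∃ c' : ℝ, c' = min c (1 / 2) / 2 := ⟨_, rfl⟩
  have hmin := lt_min hc (show (0 : ℝ) < 1 / 2 by norm_num)
  have hminl := min_le_left c (1 / 2)
  have hminr := min_le_right c (1 / 2)
  have hc'0 : 0 < c' := by rw [hc']; linarith
  have hc'1 : 2 * c' ≤ c := by rw [hc']; linarith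
  have hc'2 : 2 * c' ≤ 1 / 2 := by rw [hc']; linarith
  refine ⟨?_, c', hc'0, ?_, ?_⟩
  · intro s hs
    have hst := hs4 s hs
    obtain ⟨n₀, hn₀⟩ := eventually_atTop.1 H1
    filter_upwards [eventually_ge_atTop (n₀ + (s - (4 * J + 1)))] with n hn
    exact hpadN _ s hst n (by omega) (hn₀ _ (by omega))
  · intro s hs
    have hst := hs4 s hs
    obtain ⟨K, hK⟩ : ∃ K : ℝ, K = ((s - (4 * J + 1) : ℕ) : ℝ) := ⟨_, rfl⟩
    have h1 : Tendsto (fun τ : ℝ => τ - K) atTop atTop := tendsto_atTop_add_const_right _ _ tendsto_id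
    filter_upwards [h1.eventually H2, ev_shift c K hc, eventually_ge_atTop 1] with τ h2 h3 hτ1
    obtain ⟨x, hx, hxs⟩ := h2
    obtain ⟨y, hy, hys⟩ := pad hst x hx
    refine ⟨y, hy, ?_⟩
    have h4 := hys (R := ℝ) (fun u => (u : ℝ) ^ α) (by simp)
    rw [h4, ← hK]
    have h5 : ∑ i, (x i : ℝ) ^ α + K - τ = ∑ i, (x i : ℝ) ^ α - (τ - K) := by ring
    rw [h5]
    refine hxs.trans_le (h3.trans (Real.rpow_le_rpow_of_exponent_le hτ1 ?_))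
    linarith
  · intro s hs
    have hst := hs2 s hs
    obtain ⟨k, hk⟩ : ∃ k : ℕ, k = s - (2 * J + 1) := ⟨_, rfl⟩
    have h1 : ∀ᶠ N : ℕ in atTop, (1 + (k : ℝ)) ≤ (N : ℝ) ^ c' :=
      tendsto_natCast_atTop_atTop.eventually
        ((tendsto_rpow_atTop hc'0).eventually_ge_atTop (1 + (k : ℝ)))
    filter_upwards [H3, h1, eventually_ge_atTop 1] with N hN h2 hN1
    have hN1' : (1 : ℝ) ≤ N := by exact_mod_cast hN1
    have hN0 : (0 : ℝ) < N := by linarith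
    classical
    let Z : Finset ℕ := {n ∈ range (N + 1) | ¬ ∃ x : Fin (2 * J + 1) → ℕ, (∀ i, 1 ≤ x i) ∧
        ∑ i, ⌊(x i : ℝ) ^ α⌋ = (n : ℤ)}
    have hZ := hN Z (fun n hn => by
      have := mem_range.1 (mem_filter.1 hn).1
      omega) (fun n hn => (mem_filter.1 hn).2)
    have hsub : {n : ℕ | n ≤ N ∧ ¬ ∃ x : Fin s → ℕ, (∀ i, 1 ≤ x i) ∧
          ∑ i, ⌊(x i : ℝ) ^ α⌋₊ = n} ⊆ ((range k ∪ Z.image (fun n => n + k) : Finset ℕ) : Set ℕ) := by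
      rintro n ⟨hnN, hn⟩
      rw [mem_coe, mem_union, mem_range]
      by_cases hnk : n < k
      · exact Or.inl hnk
      · right
        rw [mem_image]
        refine ⟨n - k, ?_, by omega⟩
        rw [mem_filter, mem_range]
        refine ⟨by omega, ?_⟩
        rintro ⟨x, hx⟩
        apply hn
        apply hpadN _ s hst n (by omega)
        rw [← hk]
        exact ⟨x, hx⟩
    have h3 : ({n : ℕ | n ≤ N ∧ ¬ ∃ x : Fin s → ℕ, (∀ i, 1 ≤ x i) ∧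
          ∑ i, ⌊(x i : ℝ) ^ α⌋₊ = n}.ncard : ℝ) ≤ k + #Z := by
      have h4 := Set.ncard_le_ncard hsub (finite_toSet _)
      rw [Set.ncard_coe_finset] at h4
      have h5 : #(range k ∪ Z.image (fun n => n + k)) ≤ k + #Z := by
        refine (card_union_le _ _).trans ?_
        rw [card_range]
        exact Nat.add_le_add_left card_image_le _
      exact_mod_cast h4.trans h5
    refine h3.trans ?_
    have h4 : (N : ℝ) ^ (1 - c) ≤ (N : ℝ) ^ (1 - 2 * c') :=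
      Real.rpow_le_rpow_of_exponent_le hN1' (by linarith)
    have h5 : (1 : ℝ) ≤ (N : ℝ) ^ (1 - 2 * c') := Real.one_le_rpow hN1' (by linarith)
    have h6 : (k : ℝ) ≤ k * (N : ℝ) ^ (1 - 2 * c') := le_mul_of_one_le_right (by positivity) h5
    calc (k : ℝ) + #Z ≤ k * (N : ℝ) ^ (1 - 2 * c') + (N : ℝ) ^ (1 - 2 * c') := by linarith
      _ = (1 + (k : ℝ)) * (N : ℝ) ^ (1 - 2 * c') := by ring
      _ ≤ (N : ℝ) ^ c' * (N : ℝ) ^ (1 - 2 * c') := mul_le_mul_of_nonneg_right h2 (by positivity)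
      _ = (N : ℝ) ^ (1 - c') := by
        rw [← Real.rpow_add hN0]
        congr 1
        ring

end Pool.Agent.L7h27.EX
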